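import Pool.Agent.H619R2.QP.Final
import Pool.Agent.H648R3.WC.Nae

set_option autoImplicit false

/-!
# Outer k-quasi-planar graphs for every k at least 4: definitions and the statements of the parts

`k = q + 4` and `P = q + 2`.
-/

namespace Pool.Agent.Q229.QP4

open Pool.Agent.NPC Pool.Agent.NPC.WC648 Pool.Agent.H619R2.QP

/-! ## Tests -/

/-- A test `((a, c), (b, d))` for a linear order of the chains: the pair `{a, c}` should not cross
the pair `{b, d}`. -/
abbrev Tst : Type := (ℕ × ℕ) × (ℕ × ℕ)

/-- the instances of the source problem, monotone not-all-equal satisfiability -/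
abbrev NF : Type := List (NV × NV × NV)

/-- The four chains of a test are different, are not the chain `0` and are smaller than `N`. -/
def TOk (N : ℕ) (t : Tst) : Prop :=
  (0 < t.1.1 ∧ t.1.1 < N) ∧ (0 < t.1.2 ∧ t.1.2 < N) ∧ (0 < t.2.1 ∧ t.2.1 < N) ∧
    (0 < t.2.2 ∧ t.2.2 < N) ∧ t.1.1 ≠ t.1.2 ∧ t.1.1 ≠ t.2.1 ∧ t.1.1 ≠ t.2.2 ∧ t.1.2 ≠ t.2.1 ∧
    t.1.2 ≠ t.2.2 ∧ t.2.1 ≠ t.2.2

/-- `z` is strictly between `a` and `c` in the order `s` -/
def btw (s : ℕ → ℕ) (a c z : ℕ) : Prop := (s a < s z ∧ s z < s c) ∨ (s c < s z ∧ s z < s a)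

/-- the two pairs of a test cross -/
def Crs (s : ℕ → ℕ) (t : Tst) : Prop :=
  (btw s t.1.1 t.1.2 t.2.1 ∧ ¬ btw s t.1.1 t.1.2 t.2.2) ∨
  (¬ btw s t.1.1 t.1.2 t.2.1 ∧ btw s t.1.1 t.1.2 t.2.2)

/-- the chains strictly between `a` and `c` and strictly between `b` and `d` -/
def inner (N : ℕ) (s : ℕ → ℕ) (t : Tst) : Set ℕ :=
  {z | z < N ∧ btw s t.1.1 t.1.2 z ∧ btw s t.2.1 t.2.2 z}

/-- The test is weakly passed: if the pairs cross then only few chains are inside both. -/
def WPass (q N : ℕ) (s : ℕ → ℕ) (t : Tst) : Prop := Crs s t → (inner N s t).ncard ≤ q + 1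

/-- different chains have different places -/
def Inj (N : ℕ) (s : ℕ → ℕ) : Prop := ∀ c < N, ∀ c' < N, s c = s c' → c = c'

/-! ## The graph -/

/-- names of vertices: (copy, zone, index) -/
abbrev V3 : Type := ℕ × ℕ × ℕ

/-- The vertices. Copy `0` is the hub, with `q + 3` vertices. In the copies `1, ..., T` the zones
`0` and `2 M + 2` are the two end segments with `L` vertices, the zone `2 j + 1` is the level `j`
with one vertex for each of the `N` chains, and the zone `2 j + 2` is the block `j` with `q + 2`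
vertices. -/
def GV (q N M L T : ℕ) (v : V3) : Prop :=
  (v.1 = 0 ∧ v.2.1 = 0 ∧ v.2.2 < q + 3) ∨
  (1 ≤ v.1 ∧ v.1 ≤ T ∧
    ((v.2.1 = 0 ∧ v.2.2 < L) ∨ (v.2.1 = 2 * M + 2 ∧ v.2.2 < L) ∨
    (v.2.1 % 2 = 1 ∧ v.2.1 ≤ 2 * M + 1 ∧ v.2.2 < N) ∨
    (v.2.1 % 2 = 0 ∧ 2 ≤ v.2.1 ∧ v.2.1 ≤ 2 * M ∧ v.2.2 < q + 2)))

/-- the edges inside of one copy, with the end in the earlier zone first -/
def loc (q M L : ℕ) (te : ℕ → ℕ → ℕ → Prop) (u v : ℕ × ℕ) : Prop :=
  -- inside the end segments
  (v.1 = u.1 ∧ (u.1 = 0 ∨ u.1 = 2 * M + 2) ∧ u.2 < v.2 ∧ v.2 ≤ u.2 + (q + 3)) ∨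
  -- from the first end segment to level 0
  (u.1 = 0 ∧ u.2 + (q + 3) = L ∧ v.1 = 1) ∨
  -- from level M to the last end segment
  (u.1 = 2 * M + 1 ∧ v.1 = 2 * M + 2 ∧ v.2 = q + 2) ∨
  -- bus edges
  (u.1 % 2 = 1 ∧ v.1 = u.1 + 2 ∧ v.2 = u.2) ∨
  -- from a level to the next block
  (u.1 % 2 = 1 ∧ v.1 = u.1 + 1 ∧ v.1 ≤ 2 * M ∧ (v.2 < q ∨ u.2 = 0)) ∨
  -- test edges
  (u.1 % 2 = 1 ∧ v.1 = u.1 ∧ te (u.1 / 2) u.2 v.2)

/-- the edges; the hub is joined to all vertices of the end segments and of the blocks -/
def gadj (q M L : ℕ) (te : ℕ → ℕ → ℕ → Prop) (u v : V3) : Prop :=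
  (u.1 = 0 ∧ 1 ≤ v.1 ∧ v.2.1 % 2 = 0) ∨ (1 ≤ u.1 ∧ v.1 = u.1 ∧ loc q M L te u.2 v.2)

/-- an edge of the graph, in its standard orientation -/
def OE (q N M L T : ℕ) (te : ℕ → ℕ → ℕ → Prop) (e : V3 × V3) : Prop :=
  GV q N M L T e.1 ∧ GV q N M L T e.2 ∧ gadj q M L te e.1 e.2

/-- adjacency -/
def GA (q N M L T : ℕ) (te : ℕ → ℕ → ℕ → Prop) (u v : V3) : Prop :=
  GV q N M L T u ∧ GV q N M L T v ∧ (gadj q M L te u v ∨ gadj q M L te v u)

/-- the test number `j - 1` of the list, treated at level `j` -/
def tst (ts : List Tst) (j : ℕ) : Tst := ts.getD (j - 1) ((0, 0), (0, 0))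

/-- The test edges at level `j`, with the smaller end first. -/
def tE (ts : List Tst) (j a b : ℕ) : Prop :=
  1 ≤ j ∧ a < b ∧
    ((a = (tst ts j).1.1 ∧ b = (tst ts j).1.2) ∨ (a = (tst ts j).1.2 ∧ b = (tst ts j).1.1) ∨
    (a = (tst ts j).2.1 ∧ b = (tst ts j).2.2) ∨ (a = (tst ts j).2.2 ∧ b = (tst ts j).2.1))

/-- number of blocks; the levels `1, ..., ts.length` are used for tests -/
def Mt (ts : List Tst) : ℕ := ts.length + 1

/-- length of the end segments -/
def Lf (q M : ℕ) : ℕ := (q + 2) * M + 4 * (q + 2) + 6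

/-- number of copies -/
def Tf (q M : ℕ) : ℕ := (q + 4) * (2 * ((2 * Lf q M + M + 5) * (q + 3))) + 1

/-! ## The statements of the parts -/

/-- Soundness of the graph (part B). -/
def SoundStm : Prop := ∀ (q N : ℕ) (ts : List Tst) (pos : V3 → ℕ), 2 ≤ N →
  (∀ t ∈ ts, TOk N t) →
  (∀ u v, GV q N (Mt ts) (Lf q (Mt ts)) (Tf q (Mt ts)) u →
    GV q N (Mt ts) (Lf q (Mt ts)) (Tf q (Mt ts)) v → pos u = pos v → u = v) →
  NT (q + 4) pos (GA q N (Mt ts) (Lf q (Mt ts)) (Tf q (Mt ts)) (tE ts)) →
  ∃ s : ℕ → ℕ, Inj N s ∧ ∀ t ∈ ts, WPass q N s t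

/-- Completeness of the graph (part C).

Proof. Take `ord j c = σ c` for even `j` and `ord j c = K - σ c` for odd `j` (`K` a bound of `σ` on
the chains) and `pos = lpos ord A C` of the file `H619R2/QP/Complete` (order `Lt ord`: by copy, then
by zone, then by `off ord`). So chain `0` is the first one of the even levels and the last one of the
odd levels, two bus edges between the same levels do not cross, and two test edges of the same level
do not cross. Write `P = q + 2` and `k - 1 = P + 1 = q + 3`. Suppose `k` edges cross pairwise. If all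
of them are hub edges, their left ends are different hub vertices, which are only `k - 1`. Otherwise
all edges which are not hub edges are in one copy, and a hub edge which crosses an edge `(a, b)` of
the copy ends strictly between `a` and `b`. In each case we give labels smaller than `k - 1` such
that two crossing edges of the family have different labels.
(1) There is an edge inside the first end segment. Then the edges of the family are such edges, hub
edges to the segment and at most one edge from the segment to level 0. Label: the index of the right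
end (`L` for the last kind of edge) modulo `k - 1`; a hub edge has the index of its right end.
(2) There is an edge inside the last end segment. Symmetric: index of the left end modulo `k - 1`
(for hub edges the index of the right end), and `P` for an edge from level `M` to the segment.
(3) Otherwise, there is a test edge at level `j`. Then the rest are bus edges which end at level `j`
(at most one), bus edges which start there (at most one) and edges from level `j` to the block `j`
which do not start at chain `0`, hence with block index `i < q`, all `i` different. Labels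
`0, 1, 2` (the test edge) and `3 + i`.
(4) Otherwise, there is an edge from level `j` to a block. The rest are such edges of the same level,
at most one edge from the left which ends at level `j` (bus edge, or edge from the first end
segment if `j = 0`), at most one bus edge which starts at level `j`, and hub edges to the block `j`.
If there is an edge from the left then there are no hub edges; labels `min i q` (the edges with
`i ≥ q` start all at chain `0`), `q + 1` for the edge from the left and `q + 2` for the bus edge.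
Otherwise the label of an edge to the block and of a hub edge is the index `i` in the block
and the bus edge has the label `P`.
(5) Only long edges (bus edges, edges from the first end segment to level 0, edges from level `M` to
the last end segment) and hub edges. Number the kinds of long edges from left to right by
`0, 1, ..., M + 1`; two edges of the same kind do not cross and only consecutive kinds can cross.
Two long edges have no vertices joined to the hub in their common interior, so if there are two then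
the labels `kind mod 2` suffice. One long edge has `P` such vertices with consecutive indices in its
interior: label `P` for the long edge and the index modulo `P` for the hub edges. -/
def CompleteStm : Prop := ∀ (q N T : ℕ) (ts : List Tst) (σ : ℕ → ℕ),
  (∀ t ∈ ts, TOk N t) → Inj N σ → (∀ c, 0 < c → c < N → σ 0 < σ c) → (∀ t ∈ ts, ¬ Crs σ t) →
  ∃ pos : V3 → ℕ,
    (∀ u v, GV q N (Mt ts) (Lf q (Mt ts)) T u → GV q N (Mt ts) (Lf q (Mt ts)) T v →
      pos u = pos v → u = v) ∧
    NT (q + 4) pos (GA q N (Mt ts) (Lf q (Mt ts)) T (tE ts))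

/-- The elements of the instance: `0` and `1` are two poles, `2 + 4 i + s` for `s < 3` are the three
places of clause `i` and `2 + 4 i + 3` is an auxiliary element. -/
def Ef (φ : NF) : ℕ := 2 + 4 * φ.length

/-- The variable in place `s` of clause `i`. -/
def occ (φ : NF) (i s : ℕ) : NV :=
  if s = 0 then (φ.getD i ((0, 0, false), (0, 0, false), (0, 0, false))).1
  else if s = 1 then (φ.getD i ((0, 0, false), (0, 0, false), (0, 0, false))).2.1
  else (φ.getD i ((0, 0, false), (0, 0, false), (0, 0, false))).2.2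

/-- the tests for clause `i` -/
def clT (i : ℕ) : List Tst :=
  [((2 + 4 * i + 3, 2 + 4 * i), (0, 2 + 4 * i + 1)),
    ((2 + 4 * i + 3, 2 + 4 * i + 1), (0, 2 + 4 * i)),
    ((1, 2 + 4 * i + 3), (0, 2 + 4 * i + 2)),
    ((1, 2 + 4 * i + 2), (0, 2 + 4 * i + 3))]

/-- the places: (clause, place in the clause) -/
def plc (φ : NF) : List (ℕ × ℕ) := (List.range φ.length).product (List.range 3)

/-- the tests for equal variables -/
def eqT (φ : NF) : List Tst :=
  (((plc φ).product (plc φ)).filter (fun p =>
    decide (p.1 ≠ p.2) && decide (occ φ p.1.1 p.1.2 = occ φ p.2.1 p.2.2))).map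
    (fun p => ((0, 1), (2 + 4 * p.1.1 + p.1.2, 2 + 4 * p.2.1 + p.2.2)))

/-- all tests on the elements -/
def elT (φ : NF) : List Tst := (List.range φ.length).flatMap clT ++ eqT φ

/-- The four elements of a test are different and smaller than `E`. -/
def EOk (E : ℕ) (t : Tst) : Prop :=
  t.1.1 < E ∧ t.1.2 < E ∧ t.2.1 < E ∧ t.2.2 < E ∧ t.1.1 ≠ t.1.2 ∧ t.1.1 ≠ t.2.1 ∧
    t.1.1 ≠ t.2.2 ∧ t.1.2 ≠ t.2.1 ∧ t.1.2 ≠ t.2.2 ∧ t.2.1 ≠ t.2.2

/-- The source problem on the elements (part A1).

Proof. Let `side z` be `btw s 0 1 z`. Soundness: the tests for equal variables give that places with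
the same variable have the same side, so the assignment `τ v = side` of some place with the variable
`v` is well defined. For clause `i` with the places `a, b, c` and `y = 2 + 4 i + 3`: of the three
ways to pair four points exactly one is crossing. So `{y, 0}` crosses `{a, b}` and `{1, 0}` crosses
`{y, c}`. Hence `y` and `c` have different sides; if `a`, `b`, `c` have the same side then `a, b` are
on one side of the poles and `y` on the other one, so `{y, 0}` does not cross `{a, b}`.
Completeness: zones of the order, from left to right: `0: pole 0`, left part (value false): `1: place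
0`, `2: Ymid`, `3: place 1`, `4: place 2`, `5: Ynear`, `6: pole 1`, right part (value true):
`7: Ynear`, `8: place 0`, `9: Ymid`, `10: place 1`, `11: place 2`; all clauses share the zones,
`s e = zone e * Ef φ + e`. If places 0 and 1 of the clause have the same value then `y` is in the
zone Ymid of this value, otherwise it is in the zone Ynear of the value different from that of
place 2. -/
def ElemStm : Prop :=
  (∀ φ : NF, ∀ t ∈ elT φ, EOk (Ef φ) t) ∧
  (∀ (φ : NF) (s : ℕ → ℕ), Inj (Ef φ) s → (∀ t ∈ elT φ, ¬ Crs s t) → NAE φ) ∧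
  (∀ φ : NF, NAE φ → ∃ s : ℕ → ℕ, Inj (Ef φ) s ∧ ∀ t ∈ elT φ, ¬ Crs s t) ∧
  NPC.Poly elT ∧ UPoly Ef

/-- number of copies of an element -/
def cpf (q E : ℕ) : ℕ := 2 * (q + 4) * E

/-- number of chains -/
def Nf (q E : ℕ) : ℕ := 1 + E * cpf q E

/-- copy `u` of the element `e` -/
def ch (q E e u : ℕ) : ℕ := 1 + (e * cpf q E + u)

/-- all copies of a test -/
def blT (q E : ℕ) (t : Tst) : List Tst :=
  ((List.range (cpf q E)).product (List.range (cpf q E))).flatMap (fun a =>
    ((List.range (cpf q E)).product (List.range (cpf q E))).map (fun b =>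
      ((ch q E t.1.1 a.1, ch q E t.1.2 a.2), (ch q E t.2.1 b.1, ch q E t.2.2 b.2))))

/-- all copies of all tests -/
def chT (q E : ℕ) (l : List Tst) : List Tst := l.flatMap (blT q E)

/-- Copies of elements (part A2).

Proof of the second part. The rank of a chain is the number of chains in front of it. Choose for the
elements `0, 1, 2, ...` one after the other a copy whose rank differs by at least `q + 3` from the
ranks of the copies chosen before; every one of these forbids at most `2 q + 5` ranks, hence there is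
a free one among the `2 (q + 4) E` copies. Let `s' e` be `s` of the chosen copy of `e`. If the
pairs of a test of `l` cross in the order `s'` then between the two middle ones of the four chosen
chains there are at least `q + 2` chains, which contradicts `WPass` for the chosen copies.
Third part: `σ 0 = 0` and `σ (ch q E e u) = 1 + s e * cpf q E + u`. -/
def CopyStm : Prop := ∀ (q E : ℕ) (l : List Tst), (∀ t ∈ l, EOk E t) →
  (∀ t ∈ chT q E l, TOk (Nf q E) t) ∧
  (∀ s : ℕ → ℕ, Inj (Nf q E) s → (∀ t ∈ chT q E l, WPass q (Nf q E) s t) →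
    ∃ s' : ℕ → ℕ, Inj E s' ∧ ∀ t ∈ l, ¬ Crs s' t) ∧
  (∀ s : ℕ → ℕ, Inj E s → (∀ t ∈ l, ¬ Crs s t) →
    ∃ σ : ℕ → ℕ, Inj (Nf q E) σ ∧ (∀ c, 0 < c → c < Nf q E → σ 0 < σ c) ∧
      ∀ t ∈ chT q E l, ¬ Crs σ t)

/-- the number of chains for a formula -/
def srcN (q : ℕ) (φ : NF) : ℕ := Nf q (Ef φ)

/-- the tests for a formula -/
def srcT (q : ℕ) (φ : NF) : List Tst := chT q (Ef φ) (elT φ)

/-! ## The graph as a pair of lists (part D) -/

/-- number of blocks -/
def Mq (q : ℕ) (φ : NF) : ℕ := Mt (srcT q φ)

/-- Boolean version of `GV` -/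
def gvB (q : ℕ) (φ : NF) (v : V3) : Bool :=
  (decide (v.1 = 0) && (decide (v.2.1 = 0) && decide (v.2.2 < q + 3))) ||
  (decide (1 ≤ v.1) && (decide (v.1 ≤ Tf q (Mq q φ)) &&
    ((decide (v.2.1 = 0) && decide (v.2.2 < Lf q (Mq q φ))) ||
    ((decide (v.2.1 = 2 * Mq q φ + 2) && decide (v.2.2 < Lf q (Mq q φ))) ||
    ((decide (v.2.1 % 2 = 1) && (decide (v.2.1 ≤ 2 * Mq q φ + 1) && decide (v.2.2 < srcN q φ))) ||
    (decide (v.2.1 % 2 = 0) && (decide (2 ≤ v.2.1) &&
      (decide (v.2.1 ≤ 2 * Mq q φ) && decide (v.2.2 < q + 2)))))))))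

/-- Boolean version of `tE` -/
def tEB (ts : List Tst) (j a b : ℕ) : Bool :=
  decide (1 ≤ j) && (decide (a < b) &&
    ((decide (a = (tst ts j).1.1) && decide (b = (tst ts j).1.2)) ||
    ((decide (a = (tst ts j).1.2) && decide (b = (tst ts j).1.1)) ||
    ((decide (a = (tst ts j).2.1) && decide (b = (tst ts j).2.2)) ||
    (decide (a = (tst ts j).2.2) && decide (b = (tst ts j).2.1))))))

/-- Boolean version of `gadj` -/
def gaB (q : ℕ) (φ : NF) (u v : V3) : Bool :=
  (decide (u.1 = 0) && (decide (1 ≤ v.1) && decide (v.2.1 % 2 = 0))) ||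
  (decide (1 ≤ u.1) && (decide (v.1 = u.1) && (
  (decide (v.2.1 = u.2.1) && ((decide (u.2.1 = 0) || decide (u.2.1 = 2 * Mq q φ + 2)) &&
    (decide (u.2.2 < v.2.2) && decide (v.2.2 ≤ u.2.2 + (q + 3))))) || (
  (decide (u.2.1 = 0) && (decide (u.2.2 + (q + 3) = Lf q (Mq q φ)) && decide (v.2.1 = 1))) || (
  (decide (u.2.1 = 2 * Mq q φ + 1) && (decide (v.2.1 = 2 * Mq q φ + 2) &&
    decide (v.2.2 = q + 2))) || (
  (decide (u.2.1 % 2 = 1) && (decide (v.2.1 = u.2.1 + 2) && decide (v.2.2 = u.2.2))) || (
  (decide (u.2.1 % 2 = 1) && (decide (v.2.1 = u.2.1 + 1) && (decide (v.2.1 ≤ 2 * Mq q φ) &&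
    (decide (v.2.2 < q) || decide (u.2.2 = 0))))) ||
  (decide (u.2.1 % 2 = 1) && (decide (v.2.1 = u.2.1) &&
    tEB (srcT q φ) (u.2.1 / 2) u.2.2 v.2.2)))))))))

/-- an upper bound for the indices -/
def Bf (q : ℕ) (φ : NF) : ℕ := Lf q (Mq q φ) + srcN q φ + (q + 3)

/-- a box which contains the vertices -/
def box (q : ℕ) (φ : NF) : List V3 :=
  (List.range (Tf q (Mq q φ) + 1)).product
    ((List.range (2 * Mq q φ + 3)).product (List.range (Bf q φ)))

/-- the vertices as triples -/
def VL (q : ℕ) (φ : NF) : List V3 := (box q φ).filter (gvB q φ)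

/-- the edges as pairs of triples -/
def EL (q : ℕ) (φ : NF) : List (V3 × V3) :=
  ((VL q φ).product (VL q φ)).filter (fun p => gaB q φ p.1 p.2)

/-- names of the vertices -/
def cd (q : ℕ) (φ : NF) (v : V3) : ℕ :=
  (v.1 * (2 * Mq q φ + 3) + v.2.1) * (Bf q φ) + v.2.2

/-- the graph -/
def gr (q : ℕ) (φ : NF) : List ℕ × List (ℕ × ℕ) :=
  ((VL q φ).map (cd q φ), (EL q φ).map (fun p => (cd q φ p.1, cd q φ p.2)))

/-- The reduction (part D1). As in `Pool.Agent.H619R2.QP.Graph` (`gr_isGraph`, `gr_sound`,
`gr_complete`), with `GV`, `gadj` of this file; an edge increases (copy, zone, index)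
lexicographically. -/
def GraphStm : Prop := SoundStm → CompleteStm → ElemStm → CopyStm → ∀ (q : ℕ) (φ : NF),
  Pool.Agent.NPC.H634R2.IsGraph (gr q φ).1 (gr q φ).2 ∧
  (NAE φ ↔ ∃ pos : ℕ → ℕ, (∀ u ∈ (gr q φ).1, ∀ v ∈ (gr q φ).1, pos u = pos v → u = v) ∧
    NoTwist (q + 4) (gr q φ).2 pos)

/-- The reduction is computable in polynomial time (part D2). As in `Pool.Agent.H619R2.QP.Final`
(`poly_gr`). -/
def PolyStm : Prop := NPC.Poly elT → UPoly Ef → ∀ q : ℕ, NPC.Poly (gr q)

end Pool.Agent.Q229.QP4
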