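import Pool.Agent.Q229.QP4.Rank
import Pool.Agent.Q229.QP4.Defs

set_option autoImplicit false

/-!
# Outer k-quasi-planar graphs: a copy in a gap of the hub
-/

namespace Pool.Agent.Q229.QP4

open Pool.Agent.H619R2.QP

variable {α : Type*} {q N M L : ℕ} {te : ℕ → ℕ → ℕ → Prop} {pos : α → ℕ} {Adj : α → α → Prop}
  {Vs : Set α} {W F g : Finset α} {c : ℕ → ℕ → α}

/-- the vertices of a copy: zone and index -/
def LV (q N M L z i : ℕ) : Prop :=
  (z = 0 ∧ i < L) ∨ (z = 2 * M + 2 ∧ i < L) ∨ (z % 2 = 1 ∧ z ≤ 2 * M + 1 ∧ i < N) ∨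
    (z % 2 = 0 ∧ 2 ≤ z ∧ z ≤ 2 * M ∧ i < q + 2)

/-- a copy in a gap of the hub -/
structure Cop (q N M L : ℕ) (te : ℕ → ℕ → ℕ → Prop) (pos : α → ℕ) (Adj : α → α → Prop)
    (Vs : Set α) (W F g : Finset α) (c : ℕ → ℕ → α) : Prop where
  hub : Hub (q + 4) pos Adj Vs W F
  cF : ∀ z i, z % 2 = 0 → LV q N M L z i → c z i ∈ F
  cX : ∀ z i, z % 2 = 1 → LV q N M L z i → c z i ∈ Vs ∧ c z i ∉ F ∧ c z i ∉ W
  gap : ∀ z i, LV q N M L z i → gp W pos (c z i) = g
  inj : ∀ z i z' i', LV q N M L z i → LV q N M L z' i' → c z i = c z' i' → z = z' ∧ i = i'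
  adj : ∀ z i z' i', LV q N M L z i → LV q N M L z' i' → loc q M L te (z, i) (z', i') →
    Adj (c z i) (c z' i')

theorem Cop.mem (C : Cop q N M L te pos Adj Vs W F g c) {z i : ℕ} (h : LV q N M L z i) :
    c z i ∈ Vs ∧ c z i ∉ W := by
  rcases Nat.mod_two_eq_zero_or_one z with hz | hz
  · have := C.cF z i hz h
    exact ⟨C.hub.FV _ this, C.hub.disj _ this⟩
  · have := C.cX z i hz h
    exact ⟨this.1, this.2.2⟩

theorem Cop.same (C : Cop q N M L te pos Adj Vs W F g c) {z i z' i' : ℕ} (h : LV q N M L z i)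
    (h' : LV q N M L z' i') : gp W pos (c z i) = gp W pos (c z' i') := by
  rw [C.gap z i h, C.gap z' i' h']

theorem Cop.ne (C : Cop q N M L te pos Adj Vs W F g c) {z i z' i' : ℕ} (h : LV q N M L z i)
    (h' : LV q N M L z' i') (hne : z ≠ z' ∨ i ≠ i') : pos (c z i) ≠ pos (c z' i') := by
  intro he
  have := C.inj z i z' i' h h' (C.hub.inj (C.mem h).1 (C.mem h').1 he)
  omega

/-- the rank of a vertex of the copy -/
noncomputable def cr' (W F : Finset α) (pos : α → ℕ) (c : ℕ → ℕ → α) (z i : ℕ) : ℤ :=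
  ((rk W F pos (c z i) : ℕ) : ℤ)

theorem Cop.rinj (C : Cop q N M L te pos Adj Vs W F g c) {z i z' i' : ℕ} (h : LV q N M L z i)
    (h' : LV q N M L z' i') (hz : z % 2 = 0) (hz' : z' % 2 = 0)
    (he : cr' W F pos c z i = cr' W F pos c z' i') : z = z' ∧ i = i' := by
  refine C.inj z i z' i' h h' (C.hub.rk_inj (C.cF z i hz h) (C.cF z' i' hz' h') (C.same h h') ?_)
  unfold cr' at he
  exact_mod_cast he

theorem Cop.ranks (C : Cop q N M L te pos Adj Vs W F g c) (hL : q + 3 ≤ L) (hN : 0 < N) :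
    Ranks (q + 2) M N L L (fun i => cr' W F pos c 0 i) (fun i => cr' W F pos c (2 * M + 2) i)
      (fun j i => cr' W F pos c (2 * j + 2) i) (fun i j => cr' W F pos c (2 * j + 1) i) := by
  have hU : ∀ i, i < L → LV q N M L 0 i := fun i hi => Or.inl ⟨rfl, hi⟩
  have hV : ∀ i, i < L → LV q N M L (2 * M + 2) i := fun i hi => Or.inr (Or.inl ⟨rfl, hi⟩)
  have hX : ∀ i j, i < N → j ≤ M → LV q N M L (2 * j + 1) i := fun i j hi hj =>
    Or.inr (Or.inr (Or.inl ⟨by omega, by omega, hi⟩))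
  have hB : ∀ j i, j < M → i < q + 2 → LV q N M L (2 * j + 2) i := fun j i hj hi =>
    Or.inr (Or.inr (Or.inr ⟨by omega, by omega, by omega, hi⟩))
  have H := C.hub
  refine ⟨?_, ?_, ?_, ?_, ?_, ?_, ?_, ?_, ?_, ?_, ?_, ?_⟩
  · intro i j h1 h2 h3
    have hi := hU i (by omega)
    have hj := hU j h3
    exact H.rk_FF (C.adj 0 i 0 j hi hj (Or.inl ⟨rfl, Or.inl rfl, h1, h2⟩)) (C.cF 0 i rfl hi)
      (C.cF 0 j rfl hj) (C.same hi hj)
  · intro i j h1 h2 h3
    have hi := hV i (by omega)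
    have hj := hV j h3
    exact H.rk_FF (C.adj _ i _ j hi hj (Or.inl ⟨rfl, Or.inr rfl, h1, h2⟩)) (C.cF _ i (by omega) hi)
      (C.cF _ j (by omega) hj) (C.same hi hj)
  · intro i hi j hj h
    exact (C.rinj (hU i hi) (hU j hj) rfl rfl h).2
  · intro i hi j hj h
    exact (C.rinj (hV i hi) (hV j hj) (by omega) (by omega) h).2
  · intro j hj i hi j' hj' i' hi' h
    have := C.rinj (hB j i hj hi) (hB j' i' hj' hi') (by omega) (by omega) h
    omega
  · intro i hi j hj h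
    have := C.rinj (hU i hi) (hV j hj) (by omega) (by omega) h
    omega
  · intro i hi j' hj' i' hi' h
    have := C.rinj (hU i hi) (hB j' i' hj' hi') (by omega) (by omega) h
    omega
  · intro i hi j' hj' i' hi' h
    have := C.rinj (hV i hi) (hB j' i' hj' hi') (by omega) (by omega) h
    omega
  · intro i hi
    have e : L - (q + 2) - 1 = L - (q + 3) := by omega
    have h1 := hU (L - (q + 3)) (by omega)
    have h2 := hX i 0 hi (by omega)
    have h3 := C.cX (2 * 0 + 1) i (by omega) h2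
    show near (q + 2) (cr' W F pos c 0 (L - (q + 2) - 1)) (cr' W F pos c (2 * 0 + 1) i)
    rw [e]
    exact H.rk_Fx (P := q + 2) rfl (C.adj 0 _ _ i h1 h2
      (Or.inr (Or.inl ⟨rfl, by dsimp only; omega, rfl⟩))) (C.cF 0 _ rfl h1) h3.1 h3.2.1 h3.2.2
      (C.same h1 h2)
  · intro i hi
    have h1 := hV (q + 2) (by omega)
    have h2 := hX i M hi le_rfl
    have h3 := C.cX (2 * M + 1) i (by omega) h2
    have h4 := C.cF _ _ (by omega) h1
    exact H.rk_Fx (P := q + 2) rfl (H.symm _ _ (C.adj _ i _ _ h2 h1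
      (Or.inr (Or.inr (Or.inl ⟨rfl, rfl, rfl⟩))))) h4 h3.1 h3.2.1 h3.2.2
      (C.same h1 h2)
  · intro i hi j hj
    have h1 := hX i j hi hj.le
    have h2 := hX i (j + 1) hi hj
    have h3 := C.cX _ i (by omega) h1
    have h4 := C.cX _ i (by omega) h2
    exact H.rk_xx (P := q + 2) rfl (C.adj _ i _ i h1 h2
      (Or.inr (Or.inr (Or.inr (Or.inl ⟨by dsimp only; omega, by dsimp only; omega, rfl⟩)))))
      h3.1 h3.2.1 h3.2.2 h4.1 h4.2.1 h4.2.2 (C.same h1 h2)
  · intro j hj i hi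
    have h1 := hB j i hj hi
    have h2 := hX 0 j hN hj.le
    have h3 := C.cX _ 0 (by omega) h2
    exact H.rk_Fx (P := q + 2) rfl (H.symm _ _ (C.adj _ 0 _ i h2 h1
      (Or.inr (Or.inr (Or.inr (Or.inr (Or.inl ⟨by dsimp only; omega, by dsimp only, by
        dsimp only; omega, Or.inr rfl⟩)))))))
      (C.cF _ i (by omega) h1) h3.1 h3.2.1 h3.2.2 (C.same h1 h2)

/-- the natural orientation: the ranks of the levels -/
theorem Cop.levels (C : Cop q N M L te pos Adj Vs W F g c) (hL : L = Lf q M) (hN : 0 < N)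
    (h01 : pos (c 0 0) < pos (c 0 1)) :
    ∃ A : ℤ, ∀ i < N, ∀ j ≤ M, cr' W F pos c (2 * j + 1) i = A + (q + 2) * j := by
  have hL' : (q + 2) * M + 4 * (q + 2) + 6 = L := hL.symm
  have hR := C.ranks (by omega) hN
  have h0 : LV q N M L 0 0 := Or.inl ⟨rfl, by omega⟩
  have h1 : LV q N M L 0 1 := Or.inl ⟨rfl, by omega⟩
  rcases path_rigid (n := q + 2 + 1) (R := L) (by omega) (by omega) hR.ui hR.uu with h | h
  · obtain ⟨A, hA⟩ := hR.natural (by omega) hN (by omega) (by omega) h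
    refine ⟨A, fun i hi j hj => ?_⟩
    have := hA i hi j hj
    push_cast at this
    exact this
  · exfalso
    have h2 := h 1 (by omega)
    have h3 := rk_mono (F := F) (C.same h0 h1) h01.le
    unfold cr' at h2
    push_cast at h2
    omega

end Pool.Agent.Q229.QP4
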