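import Pool.Agent.H619R2.QP.Basic

set_option autoImplicit false

/-!
# Outer k-quasi-planar graphs: the hub

A hub `W` of `k - 1` vertices is completely joined to the set `F`. If `m ≥ 1` pairwise crossing edges
lie in one gap of the hub then at most `k - 1 - m` vertices of `F` are in their common interior.
-/

namespace Pool.Agent.Q229.QP4

open Pool.Agent.H619R2.QP

variable {α : Type*}

/-- hub vertices to the left -/
def gp (W : Finset α) (pos : α → ℕ) (v : α) : Finset α := W.filter (fun w => pos w < pos v)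

/-- a hub completely joined to `F` -/
structure Hub (k : ℕ) (pos : α → ℕ) (Adj : α → α → Prop) (Vs : Set α) (W F : Finset α) : Prop where
  nt : NT k pos Adj
  k1 : W.card + 1 = k
  inj : Set.InjOn pos Vs
  WV : ∀ w ∈ W, w ∈ Vs
  FV : ∀ f ∈ F, f ∈ Vs
  disj : ∀ f ∈ F, f ∉ W
  adj : ∀ w ∈ W, ∀ f ∈ F, Adj w f
  symm : ∀ u v, Adj u v → Adj v u

variable {k : ℕ} {pos : α → ℕ} {Adj : α → α → Prop} {Vs : Set α} {W F : Finset α}

theorem mem_gp {v w : α} : w ∈ gp W pos v ↔ w ∈ W ∧ pos w < pos v := by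
  unfold gp
  rw [Finset.mem_filter]

theorem gp_sub (v : α) : gp W pos v ⊆ W := Finset.filter_subset _ _

theorem gp_mono {u v : α} (h : pos u ≤ pos v) : gp W pos u ⊆ gp W pos v := by
  intro w hw
  rw [mem_gp] at hw ⊢
  exact ⟨hw.1, by omega⟩

theorem gp_card_le (v : α) : (gp W pos v).card ≤ W.card := Finset.card_filter_le _ _

theorem gp_eq {u v : α} (h : (gp W pos u).card = (gp W pos v).card) :
    gp W pos u = gp W pos v := by
  rcases le_total (pos u) (pos v) with h1 | h1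
  · exact Finset.eq_of_subset_of_card_le (gp_mono h1) h.ge
  · exact (Finset.eq_of_subset_of_card_le (gp_mono h1) h.le).symm

theorem Hub.ne (H : Hub k pos Adj Vs W F) {v w : α} (hv : v ∈ Vs) (hvW : v ∉ W) (hw : w ∈ W) :
    pos w ≠ pos v := by
  intro h
  exact hvW (H.inj (H.WV w hw) hv h ▸ hw)

/-- hub vertices outside the gap are to the right -/
theorem Hub.right (H : Hub k pos Adj Vs W F) {v w : α} (hv : v ∈ Vs) (hvW : v ∉ W) (hw : w ∈ W)
    (h : w ∉ gp W pos v) : pos v < pos w := by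
  have h1 := H.ne hv hvW hw
  rw [mem_gp] at h
  have : ¬ pos w < pos v := fun h2 => h ⟨hw, h2⟩
  omega

theorem Hub.core (H : Hub k pos Adj Vs W F) {l : List (α × α)} {A B : Set α} {S : Finset α}
    {g : Finset α} (hl : Lad pos Adj l A B) (hlen : 1 ≤ l.length)
    (hk : k ≤ l.length + S.card) (hS : S ⊆ F)
    (hAB : ∀ a ∈ A, ∀ b ∈ B, pos a < pos b) (hAS : ∀ a ∈ A, ∀ s ∈ S, pos a < pos s)
    (hSB : ∀ s ∈ S, ∀ b ∈ B, pos s < pos b)
    (hA : ∀ a ∈ A, a ∈ Vs ∧ a ∉ W ∧ gp W pos a = g) (hB : ∀ b ∈ B, b ∈ Vs ∧ b ∉ W ∧ gp W pos b = g)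
    (hSg : ∀ s ∈ S, gp W pos s = g) (hgW : g ⊆ W) : False := by
  classical
  have hSV : ∀ s ∈ S, s ∈ Vs ∧ s ∉ W ∧ gp W pos s = g := fun s hs =>
    ⟨H.FV s (hS hs), H.disj s (hS hs), hSg s hs⟩
  have hgc : g.card ≤ W.card := Finset.card_le_card hgW
  have hk1 := H.k1
  obtain ⟨n2, hn2⟩ : ∃ n2, n2 = min g.card (k - l.length) := ⟨_, rfl⟩
  obtain ⟨n1, hn1⟩ : ∃ n1, n1 = k - l.length - n2 := ⟨_, rfl⟩
  have hn2g : n2 ≤ g.card := by omega
  have hn1g : n1 ≤ W.card - g.card := by omega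
  obtain ⟨S1, S2, hS1, hS2, hc1, hc2, h12⟩ := split (pos := pos) (S := S) (n1 := n1) (n2 := n2)
    (fun x hx y hy hxy => H.inj (hSV x hx).1 (hSV y hy).1 hxy) (by omega)
  obtain ⟨l1, hl1, L1⟩ := Lad.of_sets (pos := pos) (Adj := Adj) (A := g) (B := S2) (n := n2)
    hn2g hc2.ge (fun x hx y hy => H.adj x (hgW hx) y (hS (hS2 hy)))
    (fun x hx y hy hxy => H.inj (H.WV x (hgW hx)) (H.WV y (hgW hy)) hxy)
    (fun x hx y hy hxy => H.inj (hSV x (hS2 hx)).1 (hSV y (hS2 hy)).1 hxy)
  obtain ⟨l3, hl3, L3⟩ := Lad.of_sets (pos := pos) (Adj := Adj) (A := S1) (B := W \ g) (n := n1)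
    hc1.ge (by rw [Finset.card_sdiff_of_subset hgW]; exact hn1g)
    (fun x hx y hy => H.symm _ _ (H.adj y (Finset.mem_sdiff.1 hy).1 x (hS (hS1 hx))))
    (fun x hx y hy hxy => H.inj (hSV x (hS1 hx)).1 (hSV y (hS1 hy)).1 hxy)
    (fun x hx y hy hxy => H.inj (H.WV x (Finset.mem_sdiff.1 hx).1)
      (H.WV y (Finset.mem_sdiff.1 hy).1) hxy)
  have kl : ∀ w ∈ g, ∀ v, gp W pos v = g → pos w < pos v := by
    intro w hw v hv
    rw [← hv] at hw
    exact (mem_gp.1 hw).2
  have kr : ∀ w ∈ W \ g, ∀ v, v ∈ Vs ∧ v ∉ W ∧ gp W pos v = g → pos v < pos w := by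
    intro w hw v hv
    obtain ⟨h1, h2⟩ := Finset.mem_sdiff.1 hw
    exact H.right hv.1 hv.2.1 h1 (by rw [hv.2.2]; exact h2)
  have L12 := L1.append hl (fun a ha a' ha' => kl a ha a' (hA a' ha').2.2)
    (fun b hb b' hb' => hSB b (hS2 hb) b' hb')
  have L := L12.append L3 (by
      rintro a (ha | ha) a' ha'
      · exact kl a ha a' (hSV a' (hS1 ha')).2.2
      · exact hAS a ha a' (hS1 ha')) (by
      rintro b (hb | hb) b' hb'
      · exact kr b' hb' b (hSV b (hS2 hb))
      · exact kr b' hb' b (hB b hb))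
  have := H.nt.lad L (by
    rintro a ((ha | ha) | ha) b ((hb | hb) | hb)
    · exact kl a ha b (hSV b (hS2 hb)).2.2
    · exact kl a ha b (hB b hb).2.2
    · obtain ⟨h1, h2⟩ := Finset.mem_sdiff.1 (Finset.mem_coe.1 hb)
      by_cases hgs : ∃ v, v ∈ S
      · obtain ⟨v, hv⟩ := hgs
        exact (kl a ha v (hSV v hv).2.2).trans (kr b hb v (hSV v hv))
      · obtain ⟨⟨e1, e2⟩, he⟩ := List.exists_mem_of_length_pos (l := l) (by omega)
        have hv := hA _ (hl.mem _ he).1
        exact (kl a ha _ hv.2.2).trans (kr b hb _ hv)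
    · exact hAS a ha b (hS2 hb)
    · exact hAB a ha b hb
    · exact kr b hb a (hA a ha)
    · exact h12 a ha b hb
    · exact hSB a (hS1 ha) b hb
    · exact kr b hb a (hSV a (hS1 ha)))
  simp only [List.length_append, hl1, hl3] at this
  omega

/-- an edge in a gap passes over at most `k - 2` vertices of `F` -/
theorem Hub.one (H : Hub k pos Adj Vs W F) {u v : α} (huv : Adj u v) (hu : u ∈ Vs) (hv : v ∈ Vs)
    (huW : u ∉ W) (hvW : v ∉ W) (hg : gp W pos u = gp W pos v) (hlt : pos u < pos v)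
    {S : Finset α} (hS : S ⊆ F) (h1 : ∀ s ∈ S, pos u < pos s) (h2 : ∀ s ∈ S, pos s < pos v) :
    S.card + 2 ≤ k := by
  by_contra hcon
  refine H.core (S := S) (g := gp W pos u) (Lad.single huv) (by simp) (by simp; omega) hS ?_ ?_ ?_
    ?_ ?_ ?_ (gp_sub u)
  · rintro a ha b hb
    rw [Set.mem_singleton_iff] at ha hb
    subst ha hb
    exact hlt
  · rintro a ha s hs
    rw [Set.mem_singleton_iff] at ha
    subst ha
    exact h1 s hs
  · rintro s hs b hb
    rw [Set.mem_singleton_iff] at hb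
    subst hb
    exact h2 s hs
  · rintro a ha
    rw [Set.mem_singleton_iff] at ha
    subst ha
    exact ⟨hu, huW, rfl⟩
  · rintro b hb
    rw [Set.mem_singleton_iff] at hb
    subst hb
    exact ⟨hv, hvW, hg.symm⟩
  · intro s hs
    apply Finset.Subset.antisymm
    · rw [hg]; exact gp_mono (h2 s hs).le
    · exact gp_mono (h1 s hs).le

/-- two crossing edges in a gap -/
theorem Hub.two (H : Hub k pos Adj Vs W F) {u v u' v' : α} (huv : Adj u v) (huv' : Adj u' v')
    (hV : ∀ x ∈ [u, v, u', v'], x ∈ Vs ∧ x ∉ W ∧ gp W pos x = gp W pos u)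
    (h1 : pos u < pos u') (h2 : pos v < pos v') (h3 : pos u' < pos v)
    {S : Finset α} (hS : S ⊆ F) (h4 : ∀ s ∈ S, pos u' < pos s) (h5 : ∀ s ∈ S, pos s < pos v) :
    S.card + 3 ≤ k := by
  by_contra hcon
  have hVu := hV u (by simp)
  have hVv := hV v (by simp)
  have hVu' := hV u' (by simp)
  have hVv' := hV v' (by simp)
  have L := (Lad.single (pos := pos) huv).append (Lad.single (pos := pos) huv') (by
    rintro a ha b hb
    rw [Set.mem_singleton_iff] at ha hb
    subst ha hb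
    exact h1) (by
    rintro a ha b hb
    rw [Set.mem_singleton_iff] at ha hb
    subst ha hb
    exact h2)
  refine H.core (S := S) (g := gp W pos u) L (by simp) (by simp; omega) hS ?_ ?_ ?_
    ?_ ?_ ?_ (gp_sub u)
  · rintro a ha b hb
    simp only [Set.mem_union, Set.mem_singleton_iff] at ha hb
    rcases ha with rfl | rfl <;> rcases hb with rfl | rfl <;> omega
  · rintro a ha s hs
    have := h4 s hs
    simp only [Set.mem_union, Set.mem_singleton_iff] at ha
    rcases ha with rfl | rfl <;> omega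
  · rintro s hs b hb
    have := h5 s hs
    simp only [Set.mem_union, Set.mem_singleton_iff] at hb
    rcases hb with rfl | rfl <;> omega
  · rintro a ha
    simp only [Set.mem_union, Set.mem_singleton_iff] at ha
    rcases ha with rfl | rfl
    · exact hVu
    · exact hVu'
  · rintro b hb
    simp only [Set.mem_union, Set.mem_singleton_iff] at hb
    rcases hb with rfl | rfl
    · exact hVv
    · exact hVv'
  · intro s hs
    apply Finset.Subset.antisymm
    · rw [← hVv.2.2]; exact gp_mono (h5 s hs).le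
    · rw [← hVu'.2.2]; exact gp_mono (h4 s hs).le

end Pool.Agent.Q229.QP4
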