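import Pool.Agent.H619R2.QP.Graph
import Pool.Agent.NPC.Dec

set_option autoImplicit false

/-!
# Outer k-quasi-planar graphs: membership in NP, the statement
-/

namespace Pool.Agent.Q229.QP4

open Pool.Agent.NPC Pool.Agent.NPC.H634R2 Pool.Agent.H619R2.QP

/-- For fixed `k` the recognition problem is in NP.

Proof. Use `inNPP_of` (example: `Pool.Agent.H641R2.GD.InNP`, theorem `inNPP_GD`). Certificate: a list
`w : List ℕ`, which contains all vertices, in the circular order; the position of `v` is its index in
`w` (from `pos` take the vertices sorted by `pos`, a permutation of `G.1`). The verifier tests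
`IsGraph`, `G.1 ⊆ w` and that no `k` edges cross pairwise, by computing for `j = 0, 1, ..., k` the list
`fam j` of all lists of `j` pairwise crossing edges: `fam 0 = [[]]` and `fam (j + 1)` has `e :: l`
for `l` in `fam j` and each edge `e` crossing all edges of `l`; for fixed `k` this is a fixed number
of steps each of which is computable in polynomial time (induction on `j`). Crossing depends only on
the order of the positions. -/
def MemStm : Prop := ∀ k : ℕ, InNPP (fun G : List ℕ × List (ℕ × ℕ) => IsGraph G.1 G.2 ∧
  ∃ pos : ℕ → ℕ, (∀ u ∈ G.1, ∀ v ∈ G.1, pos u = pos v → u = v) ∧ NoTwist k G.2 pos)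

end Pool.Agent.Q229.QP4
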