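import Pool.Agent.Q229.QP4.Sound
import Pool.Agent.Q229.QP4.Mem
import Pool.Agent.Q223.QP4.GraphStm
import Pool.Agent.H642R2.TMSim

set_option autoImplicit false

/-!
# Outer k-quasi-planar graphs: hardness, assembled from the parts
-/

namespace Pool.Agent.Q229.QP4

open Pool.Agent.NPC Pool.Agent.NPC.H634R2 Pool.Agent.NPC.WC648 Pool.Agent.H619R2.QP

/-- the drawing condition -/
def OQ (k : ℕ) (G : List ℕ × List (ℕ × ℕ)) : Prop :=
  ∃ pos : ℕ → ℕ, (∀ u ∈ G.1, ∀ v ∈ G.1, pos u = pos v → u = v) ∧ NoTwist k G.2 pos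

/-- the recognition problem -/
def Rec (k : ℕ) (G : List ℕ × List (ℕ × ℕ)) : Prop := IsGraph G.1 G.2 ∧ OQ k G

theorem hardPr_rec (hC : CompleteStm) (hE : ElemStm) (hCp : CopyStm) (hP : PolyStm) {k : ℕ}
    (hk : 4 ≤ k) : HardPr (fun G : List ℕ × List (ℕ × ℕ) => IsGraph G.1 G.2) (OQ k) := by
  obtain ⟨q, rfl⟩ : ∃ q, k = q + 4 := ⟨k - 4, by omega⟩
  have hG := Pool.Agent.Q223.QP4.graph soundStm hC hE hCp q
  exact (hardI_NAE.toHardPr).trans (f := gr q) (hP hE.2.2.2.1 hE.2.2.2.2 q)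
    (fun φ _ => (hG φ).1) (fun φ _ => (hG φ).2)

theorem hard_rec (hC : CompleteStm) (hE : ElemStm) (hCp : CopyStm) (hP : PolyStm) {k : ℕ}
    (hk : 4 ≤ k) : NPHardP (Rec k) := by
  have h : HardPr (fun _ => True) (Rec k) := by
    intro L hL
    obtain ⟨f, hf, hpr, hL⟩ := hardPr_rec hC hE hCp hP hk L hL
    refine ⟨f, hf, fun _ => trivial, fun x => ?_⟩
    rw [hL x]
    exact ⟨fun h => ⟨hpr x, h⟩, fun h => h.2⟩
  exact h.toHardI.toNPHardP

theorem final (hC : CompleteStm) (hE : ElemStm) (hCp : CopyStm) (hP : PolyStm) (hM : MemStm)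
    {k : ℕ} (hk : 4 ≤ k) :
    InNPP (Rec k) ∧ NPHardP (Rec k) ∧
    ((∃ F : List Bool → List Bool, PolyTime F ∧
        ∀ (V : List ℕ) (E : List (ℕ × ℕ)), IsGraph V E →
          (F (bits (V, E)) = [true] ↔ OQ k (V, E))) ↔
      ∀ L : Set (List Bool), InNP L → InP L) := by
  refine ⟨hM k, hard_rec hC hE hCp hP hk, ?_, ?_⟩
  · rintro ⟨F, hF, hdec⟩
    intro L hL
    obtain ⟨f, hf, hpr, hL⟩ := hardPr_rec hC hE hCp hP hk L hL
    refine ⟨fun x => F (bits (f x)), ?_, fun x => ?_⟩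
    · have h1 : PC (fun x : List Bool => x) (fun x : List Bool => x) (fun x => bits (f x)) := hf
      exact PC.toPolyTime (PC.comp (g := F) (f := fun x => bits (f x))
        (Pool.Agent.H642R2.TMSim.polyTime_toPC hF) h1)
    · rw [hL x]
      exact (hdec (f x).1 (f x).2 (hpr x)).symm
  · intro h
    obtain ⟨F, hF, hdec⟩ := h _ (hM k)
    refine ⟨F, hF, fun V E hVE => ?_⟩
    rw [← hdec]
    constructor
    · rintro ⟨G, hG, h1, h2⟩
      rw [bits_injective hG] at h2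
      exact h2
    · intro h1
      exact ⟨(V, E), rfl, hVE, h1⟩

end Pool.Agent.Q229.QP4
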