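import Pool.Agent.Q229.QP4.Core

set_option autoImplicit false

/-!
# Outer k-quasi-planar graphs: neighbours of deep vertices are in the same gap of the hub
-/

namespace Pool.Agent.Q229.QP4

open Pool.Agent.H619R2.QP

variable {α : Type*} {k : ℕ} {pos : α → ℕ} {Adj : α → α → Prop} {Vs : Set α} {W F : Finset α}

/-- vertices of `F` of the same gap to the left -/
noncomputable def Yf (W F : Finset α) (pos : α → ℕ) (v : α) : Finset α :=
  @Finset.filter _ (fun f => gp W pos f = gp W pos v ∧ pos f < pos v) (Classical.decPred _) F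

/-- vertices of `F` of the same gap to the right -/
noncomputable def Zf (W F : Finset α) (pos : α → ℕ) (v : α) : Finset α :=
  @Finset.filter _ (fun f => gp W pos f = gp W pos v ∧ pos v < pos f) (Classical.decPred _) F

theorem mem_Yf {v f : α} : f ∈ Yf W F pos v ↔ f ∈ F ∧ gp W pos f = gp W pos v ∧ pos f < pos v := by
  simp only [Yf, Finset.mem_filter]

theorem mem_Zf {v f : α} : f ∈ Zf W F pos v ↔ f ∈ F ∧ gp W pos f = gp W pos v ∧ pos v < pos f := by
  simp only [Zf, Finset.mem_filter]

/-- neighbours of deep vertices are in the same gap -/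
theorem Hub.same_gap (H : Hub k pos Adj Vs W F) {u v : α} (hvV : v ∈ Vs) (hvW : v ∉ W)
    (huV : u ∈ Vs) (hu : u ∉ W) (huv : Adj u v) (hY : W.card ≤ (Yf W F pos v).card)
    (hZ : W.card ≤ (Zf W F pos v).card) : gp W pos u = gp W pos v := by
  classical
  by_contra hne
  have cu := gp_card_le (W := W) (pos := pos) u
  have cv := gp_card_le (W := W) (pos := pos) v
  have hk1 := H.k1
  have card_diff : ∀ x, (W \ gp W pos x).card = W.card - (gp W pos x).card := by
    intro x
    rw [Finset.card_sdiff_of_subset (gp_sub x)]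
  have hYF : ∀ y ∈ Yf W F pos v, y ∈ F ∧ gp W pos y = gp W pos v ∧ pos y < pos v :=
    fun y hy => mem_Yf.1 hy
  have hZF : ∀ y ∈ Zf W F pos v, y ∈ F ∧ gp W pos y = gp W pos v ∧ pos v < pos y :=
    fun y hy => mem_Zf.1 hy
  have injW : ∀ S : Finset α, S ⊆ W → Set.InjOn pos S := fun S hS x hx y hy hxy =>
    H.inj (H.WV x (hS hx)) (H.WV y (hS hy)) hxy
  have injF : ∀ S : Finset α, S ⊆ F → Set.InjOn pos S := fun S hS x hx y hy hxy =>
    H.inj (H.FV x (hS hx)) (H.FV y (hS hy)) hxy
  have k1 : ∀ w ∈ gp W pos v, ∀ y, gp W pos y = gp W pos v → pos w < pos y := by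
    intro w hw y hy
    rw [← hy] at hw
    exact (mem_gp.1 hw).2
  have k2 : ∀ w ∈ W, w ∉ gp W pos v → ∀ y ∈ F, gp W pos y = gp W pos v → pos y < pos w := by
    intro w hw hwv y hyF hy
    exact H.right (H.FV y hyF) (H.disj y hyF) hw (by rw [hy]; exact hwv)
  have k2v : ∀ w ∈ W, w ∉ gp W pos v → pos v < pos w := fun w hw hwv => H.right hvV hvW hw hwv
  have k3 : ∀ w ∈ W, w ∉ gp W pos u → pos u < pos w := fun w hw hwu => H.right huV hu hw hwu
  have k4 : ∀ w ∈ gp W pos u, pos w < pos u := fun w hw => (mem_gp.1 hw).2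
  rcases lt_trichotomy (pos v) (pos u) with hlt | heq | hlt
  · -- v before u
    have hss : gp W pos v ⊆ gp W pos u := gp_mono hlt.le
    have hcard : (gp W pos v).card < (gp W pos u).card := by
      by_contra hc
      exact hne (Finset.eq_of_subset_of_card_le hss (by omega)).symm
    have k5 : ∀ y, gp W pos y = gp W pos v → pos y < pos u := by
      intro y hy
      by_contra hc
      have := gp_mono (W := W) (pos := pos) (u := u) (v := y) (by omega)
      rw [hy] at this
      exact hne (Finset.Subset.antisymm this hss)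
    obtain ⟨Z1, Z2, hZ1, hZ2, hcZ1, hcZ2, hZZ⟩ := split (pos := pos) (S := Zf W F pos v)
      (n1 := W.card - (gp W pos u).card) (n2 := (gp W pos v).card)
      (injF _ (fun x hx => (hZF x hx).1)) (by omega)
    obtain ⟨l1, hl1, L1⟩ := Lad.of_sets (pos := pos) (Adj := Adj)
      (A := gp W pos v) (B := Z2) (n := (gp W pos v).card) le_rfl hcZ2.ge
      (fun x hx y hy => H.adj x (gp_sub v hx) y (hZF y (hZ2 hy)).1)
      (injW _ (gp_sub v)) (injF _ (fun x hx => (hZF x (hZ2 hx)).1))
    obtain ⟨l2, hl2, L2⟩ := Lad.of_sets (pos := pos) (Adj := Adj)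
      (A := Yf W F pos v) (B := gp W pos u \ gp W pos v)
      (n := (gp W pos u).card - (gp W pos v).card) (by omega)
      (by rw [Finset.card_sdiff_of_subset hss])
      (fun x hx y hy => H.symm _ _ (H.adj y (gp_sub u (Finset.mem_sdiff.1 hy).1) x (hYF x hx).1))
      (injF _ (fun x hx => (hYF x hx).1))
      (injW _ (fun x hx => gp_sub u (Finset.mem_sdiff.1 hx).1))
    obtain ⟨l4, hl4, L4⟩ := Lad.of_sets (pos := pos) (Adj := Adj)
      (A := Z1) (B := W \ gp W pos u)
      (n := W.card - (gp W pos u).card) hcZ1.ge (by rw [card_diff])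
      (fun x hx y hy => H.symm _ _ (H.adj y (Finset.mem_sdiff.1 hy).1 x (hZF x (hZ1 hx)).1))
      (injF _ (fun x hx => (hZF x (hZ1 hx)).1))
      (injW _ (fun x hx => (Finset.mem_sdiff.1 hx).1))
    have L3 := Lad.single (pos := pos) (H.symm _ _ huv)
    have L12 := L1.append L2
      (fun a ha a' ha' => k1 a ha a' (hYF a' ha').2.1)
      (fun b hb b' hb' => k2 b' (gp_sub u (Finset.mem_sdiff.1 hb').1) (Finset.mem_sdiff.1 hb').2 b
        (hZF b (hZ2 hb)).1 (hZF b (hZ2 hb)).2.1)
    have L123 := L12.append L3 (by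
        intro a ha a' ha'
        rw [Set.mem_singleton_iff] at ha'
        subst ha'
        rcases ha with ha | ha
        · exact k1 a ha _ rfl
        · exact (hYF a ha).2.2) (by
        intro b hb b' hb'
        rw [Set.mem_singleton_iff] at hb'
        subst hb'
        rcases hb with hb | hb
        · exact k5 b (hZF b (hZ2 hb)).2.1
        · exact k4 b (Finset.mem_sdiff.1 hb).1)
    have L := L123.append L4 (by
        intro a ha a' ha'
        have ha'' := hZF a' (hZ1 ha')
        rcases ha with (ha | ha) | ha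
        · exact k1 a ha _ ha''.2.1
        · exact (hYF a ha).2.2.trans ha''.2.2
        · rw [Set.mem_singleton_iff] at ha
          subst ha
          exact ha''.2.2) (by
        intro b hb b' hb'
        obtain ⟨hb1, hb2⟩ := Finset.mem_sdiff.1 hb'
        have hb3 : b' ∉ gp W pos v := fun h => hb2 (hss h)
        have hub := k3 b' hb1 hb2
        rcases hb with (hb | hb) | hb
        · exact k2 b' hb1 hb3 b (hZF b (hZ2 hb)).1 (hZF b (hZ2 hb)).2.1
        · exact (k4 b (Finset.mem_sdiff.1 hb).1).trans hub
        · rw [Set.mem_singleton_iff] at hb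
          subst hb
          exact hub)
    have := H.nt.lad L (by
      have hW' : ∀ a ∈ ((↑(gp W pos v) ∪ ↑(Yf W F pos v) ∪ {v} ∪ ↑Z1 : Set α)),
          ∀ w ∈ W, w ∉ gp W pos v → pos a < pos w := by
        intro a ha w hw hwv
        have hvw := k2v w hw hwv
        rcases ha with ((ha | ha) | ha) | ha
        · exact (k1 a ha _ rfl).trans hvw
        · exact (hYF a ha).2.2.trans hvw
        · rw [Set.mem_singleton_iff] at ha
          subst ha
          exact hvw
        · exact k2 w hw hwv a (hZF a (hZ1 ha)).1 (hZF a (hZ1 ha)).2.1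
      have hu' : ∀ a ∈ ((↑(gp W pos v) ∪ ↑(Yf W F pos v) ∪ {v} ∪ ↑Z1 : Set α)),
          pos a < pos u := by
        intro a ha
        rcases ha with ((ha | ha) | ha) | ha
        · exact (k1 a ha _ rfl).trans hlt
        · exact (hYF a ha).2.2.trans hlt
        · rw [Set.mem_singleton_iff] at ha
          subst ha
          exact hlt
        · exact k5 a (hZF a (hZ1 ha)).2.1
      intro a ha b hb
      rcases hb with ((hb | hb) | hb) | hb
      · have hb' := hZF b (hZ2 hb)
        rcases ha with ((ha | ha) | ha) | ha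
        · exact k1 a ha _ hb'.2.1
        · exact (hYF a ha).2.2.trans hb'.2.2
        · rw [Set.mem_singleton_iff] at ha
          subst ha
          exact hb'.2.2
        · exact hZZ a ha b hb
      · obtain ⟨hb1, hb2⟩ := Finset.mem_sdiff.1 hb
        exact hW' a ha b (gp_sub u hb1) hb2
      · rw [Set.mem_singleton_iff] at hb
        subst hb
        exact hu' a ha
      · obtain ⟨hb1, hb2⟩ := Finset.mem_sdiff.1 hb
        exact hW' a ha b hb1 (fun h => hb2 (hss h)))
    simp only [List.length_append, List.length_singleton, hl1, hl2, hl4] at this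
    omega
  · exact hne (Finset.Subset.antisymm (gp_mono heq.ge) (gp_mono heq.le))
  · -- u before v
    have hss : gp W pos u ⊆ gp W pos v := gp_mono hlt.le
    have hcard : (gp W pos u).card < (gp W pos v).card := by
      by_contra hc
      exact hne (Finset.eq_of_subset_of_card_le hss (by omega))
    have k5 : ∀ y, gp W pos y = gp W pos v → pos u < pos y := by
      intro y hy
      by_contra hc
      have := gp_mono (W := W) (pos := pos) (u := y) (v := u) (by omega)
      rw [hy] at this
      exact hne (Finset.Subset.antisymm hss this)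
    obtain ⟨Y1, Y2, hY1, hY2, hcY1, hcY2, hYY⟩ := split (pos := pos) (S := Yf W F pos v)
      (n1 := W.card - (gp W pos v).card) (n2 := (gp W pos u).card)
      (injF _ (fun x hx => (hYF x hx).1)) (by omega)
    obtain ⟨l1, hl1, L1⟩ := Lad.of_sets (pos := pos) (Adj := Adj)
      (A := gp W pos u) (B := Y2) (n := (gp W pos u).card) le_rfl hcY2.ge
      (fun x hx y hy => H.adj x (gp_sub u hx) y (hYF y (hY2 hy)).1)
      (injW _ (gp_sub u)) (injF _ (fun x hx => (hYF x (hY2 hx)).1))
    obtain ⟨l3, hl3, L3⟩ := Lad.of_sets (pos := pos) (Adj := Adj)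
      (A := gp W pos v \ gp W pos u) (B := Zf W F pos v)
      (n := (gp W pos v).card - (gp W pos u).card)
      (by rw [Finset.card_sdiff_of_subset hss]) (by omega)
      (fun x hx y hy => H.adj x (gp_sub v (Finset.mem_sdiff.1 hx).1) y (hZF y hy).1)
      (injW _ (fun x hx => gp_sub v (Finset.mem_sdiff.1 hx).1))
      (injF _ (fun x hx => (hZF x hx).1))
    obtain ⟨l4, hl4, L4⟩ := Lad.of_sets (pos := pos) (Adj := Adj)
      (A := Y1) (B := W \ gp W pos v)
      (n := W.card - (gp W pos v).card) hcY1.ge (by rw [card_diff])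
      (fun x hx y hy => H.symm _ _ (H.adj y (Finset.mem_sdiff.1 hy).1 x (hYF x (hY1 hx)).1))
      (injF _ (fun x hx => (hYF x (hY1 hx)).1))
      (injW _ (fun x hx => (Finset.mem_sdiff.1 hx).1))
    have L2 := Lad.single (pos := pos) huv
    have L12 := L1.append L2 (by
        intro a ha a' ha'
        rw [Set.mem_singleton_iff] at ha'
        subst ha'
        exact k4 a ha) (by
        intro b hb b' hb'
        rw [Set.mem_singleton_iff] at hb'
        subst hb'
        exact (hYF b (hY2 hb)).2.2)
    have L123 := L12.append L3 (by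
        intro a ha a' ha'
        obtain ⟨h1, h2⟩ := Finset.mem_sdiff.1 ha'
        have h3 := k3 a' (gp_sub v h1) h2
        rcases ha with ha | ha
        · exact (k4 a ha).trans h3
        · rw [Set.mem_singleton_iff] at ha
          subst ha
          exact h3) (by
        intro b hb b' hb'
        have hb'' := hZF b' hb'
        rcases hb with hb | hb
        · exact (hYF b (hY2 hb)).2.2.trans hb''.2.2
        · rw [Set.mem_singleton_iff] at hb
          subst hb
          exact hb''.2.2)
    have hAy : ∀ a ∈ ((↑(gp W pos u) ∪ {u} ∪ ↑(gp W pos v \ gp W pos u) : Set α)),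
        ∀ y ∈ Yf W F pos v, pos a < pos y := by
      intro a ha y hy
      have hy' := hYF y hy
      rcases ha with (ha | ha) | ha
      · exact k1 a (hss ha) _ hy'.2.1
      · rw [Set.mem_singleton_iff] at ha
        subst ha
        exact k5 y hy'.2.1
      · rw [Finset.mem_coe] at ha
        exact k1 a (Finset.mem_sdiff.1 ha).1 _ hy'.2.1
    have hBw : ∀ b ∈ ((↑Y2 ∪ {v} ∪ ↑(Zf W F pos v) : Set α)),
        ∀ w ∈ W \ gp W pos v, pos b < pos w := by
      intro b hb w hw
      obtain ⟨h1, h2⟩ := Finset.mem_sdiff.1 hw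
      rcases hb with (hb | hb) | hb
      · exact k2 w h1 h2 b (hYF b (hY2 hb)).1 (hYF b (hY2 hb)).2.1
      · rw [Set.mem_singleton_iff] at hb
        subst hb
        exact k2v w h1 h2
      · exact k2 w h1 h2 b (hZF b hb).1 (hZF b hb).2.1
    have L := L123.append L4 (fun a ha a' ha' => hAy a ha a' (hY1 ha'))
      (fun b hb b' hb' => hBw b hb b' hb')
    have := H.nt.lad L (by
      have hav : ∀ a ∈ ((↑(gp W pos u) ∪ {u} ∪ ↑(gp W pos v \ gp W pos u) ∪ ↑Y1 :
          Set α)), pos a < pos v := by
        intro a ha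
        rcases ha with ((ha | ha) | ha) | ha
        · exact k1 a (hss ha) _ rfl
        · rw [Set.mem_singleton_iff] at ha
          subst ha
          exact hlt
        · rw [Finset.mem_coe] at ha
          exact k1 a (Finset.mem_sdiff.1 ha).1 _ rfl
        · exact (hYF a (hY1 ha)).2.2
      intro a ha b hb
      rcases hb with ((hb | hb) | hb) | hb
      · rcases ha with ha | ha
        · exact hAy a ha b (hY2 hb)
        · exact hYY a ha b hb
      · rw [Set.mem_singleton_iff] at hb
        subst hb
        exact hav a ha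
      · exact (hav a ha).trans (hZF b hb).2.2
      · obtain ⟨hb1, hb2⟩ := Finset.mem_sdiff.1 (Finset.mem_coe.1 hb)
        exact (hav a ha).trans (k2v b hb1 hb2))
    simp only [List.length_append, List.length_singleton, hl1, hl3, hl4] at this
    omega

/-- `v` has at least `n (k - 1)` vertices of `F` of its gap on both sides -/
def Deep (k : ℕ) (W F : Finset α) (pos : α → ℕ) (n : ℕ) (v : α) : Prop :=
  n * (k - 1) ≤ (Yf W F pos v).card ∧ n * (k - 1) ≤ (Zf W F pos v).card

theorem Deep.step (H : Hub k pos Adj Vs W F) {n : ℕ} {u v : α} (h : Deep k W F pos (n + 1) v)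
    (hvV : v ∈ Vs) (hvW : v ∉ W) (huV : u ∈ Vs) (hu : u ∉ W) (huv : Adj u v) :
    gp W pos u = gp W pos v ∧ Deep k W F pos n u := by
  classical
  have hk1 := H.k1
  obtain ⟨hY, hZ⟩ := h
  have e : (n + 1) * (k - 1) = n * (k - 1) + (k - 1) := by ring
  rw [e] at hY hZ
  have hg := H.same_gap hvV hvW huV hu huv (by omega) (by omega)
  refine ⟨hg, ?_⟩
  have hne : pos u ≠ pos v ∨ u = v := by
    by_cases h : pos u = pos v
    · exact Or.inr (H.inj huV hvV h)
    · exact Or.inl h
  rcases hne with hne | rfl
  · rcases lt_or_gt_of_ne hne with hlt | hlt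
    · -- u left of v
      constructor
      · let S := F.filter (fun f => pos u < pos f ∧ pos f < pos v)
        have h1 := H.one huv huV hvV hu hvW hg hlt (S := S) (Finset.filter_subset _ _)
          (fun s hs => (Finset.mem_filter.1 hs).2.1) (fun s hs => (Finset.mem_filter.1 hs).2.2)
        have h2 : Yf W F pos v ⊆ Yf W F pos u ∪ (S ∪ {u}) := by
          intro f hf
          obtain ⟨a1, a2, a3⟩ := mem_Yf.1 hf
          simp only [Finset.mem_union, Finset.mem_singleton]
          rcases lt_trichotomy (pos f) (pos u) with h | h | h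
          · exact Or.inl (mem_Yf.2 ⟨a1, a2.trans hg.symm, h⟩)
          · exact Or.inr (Or.inr (H.inj (H.FV f a1) huV h))
          · exact Or.inr (Or.inl (Finset.mem_filter.2 ⟨a1, h, a3⟩))
        have h3 := Finset.card_le_card h2
        have h4 := Finset.card_union_le (Yf W F pos u) (S ∪ {u})
        have h5 := Finset.card_union_le S {u}
        rw [Finset.card_singleton] at h5
        omega
      · have h2 : Zf W F pos v ⊆ Zf W F pos u := by
          intro f hf
          obtain ⟨a1, a2, a3⟩ := mem_Zf.1 hf
          exact mem_Zf.2 ⟨a1, a2.trans hg.symm, by omega⟩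
        have h3 := Finset.card_le_card h2
        omega
    · constructor
      · have h2 : Yf W F pos v ⊆ Yf W F pos u := by
          intro f hf
          obtain ⟨a1, a2, a3⟩ := mem_Yf.1 hf
          exact mem_Yf.2 ⟨a1, a2.trans hg.symm, by omega⟩
        have h3 := Finset.card_le_card h2
        omega
      · let S := F.filter (fun f => pos v < pos f ∧ pos f < pos u)
        have h1 := H.one (H.symm _ _ huv) hvV huV hvW hu hg.symm hlt (S := S)
          (Finset.filter_subset _ _)
          (fun s hs => (Finset.mem_filter.1 hs).2.1) (fun s hs => (Finset.mem_filter.1 hs).2.2)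
        have h2 : Zf W F pos v ⊆ Zf W F pos u ∪ (S ∪ {u}) := by
          intro f hf
          obtain ⟨a1, a2, a3⟩ := mem_Zf.1 hf
          simp only [Finset.mem_union, Finset.mem_singleton]
          rcases lt_trichotomy (pos f) (pos u) with h | h | h
          · exact Or.inr (Or.inl (Finset.mem_filter.2 ⟨a1, a3, h⟩))
          · exact Or.inr (Or.inr (H.inj (H.FV f a1) huV h))
          · exact Or.inl (mem_Zf.2 ⟨a1, a2.trans hg.symm, h⟩)
        have h3 := Finset.card_le_card h2
        have h4 := Finset.card_union_le (Zf W F pos u) (S ∪ {u})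
        have h5 := Finset.card_union_le S {u}
        rw [Finset.card_singleton] at h5
        omega
  · exact ⟨by omega, by omega⟩

/-- all but few vertices of `F` are deep -/
theorem Hub.exists_deep (H : Hub k pos Adj Vs W F) (n : ℕ) {T : ℕ} {b : ℕ → α}
    (hb : ∀ h < T, b h ∈ F) (hinj : ∀ h < T, ∀ h' < T, b h = b h' → h = h')
    (hT : k * (2 * (n * (k - 1))) < T) : ∃ h < T, Deep k W F pos n (b h) := by
  classical
  by_contra hcon
  push Not at hcon
  have hk1 := H.k1
  let D := n * (k - 1)
  -- code of a vertex which is not deep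
  let cdf : ℕ → ℕ × (ℕ × ℕ) := fun h =>
    ((gp W pos (b h)).card, if (Yf W F pos (b h)).card < D then (0, (Yf W F pos (b h)).card)
      else (1, (Zf W F pos (b h)).card))
  have hmaps : ∀ h ∈ Finset.range T, cdf h ∈ Finset.range k ×ˢ
      (Finset.range 2 ×ˢ Finset.range D) := by
    intro h hh
    rw [Finset.mem_range] at hh
    have h1 := gp_card_le (W := W) (pos := pos) (b h)
    have h2 := hcon h hh
    unfold Deep at h2
    simp only [cdf, Finset.mem_product, Finset.mem_range]
    refine ⟨by omega, ?_⟩
    split_ifs with h3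
    · exact ⟨by simp, h3⟩
    · refine ⟨by simp, ?_⟩
      by_contra h4
      exact h2 ⟨by simpa [D] using not_lt.1 h3, by simpa [D] using not_lt.1 h4⟩
  obtain ⟨h, hh, h', hh', hne, heq⟩ := Finset.exists_ne_map_eq_of_card_lt_of_maps_to (by
    rw [Finset.card_product, Finset.card_product, Finset.card_range, Finset.card_range,
      Finset.card_range, Finset.card_range]
    simpa [D, Nat.mul_comm, Nat.mul_left_comm, Nat.mul_assoc] using hT) hmaps
  rw [Finset.mem_range] at hh hh'
  simp only [cdf, Prod.mk.injEq] at heq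
  obtain ⟨e1, e2⟩ := heq
  have hg := gp_eq e1
  have hFh := hb h hh
  have hFh' := hb h' hh'
  have hpos : pos (b h) ≠ pos (b h') := fun hp => hne (hinj h hh h' hh'
    (H.inj (H.FV _ hFh) (H.FV _ hFh') hp))
  -- monotonicity of the counts
  have hYlt : ∀ x y, x ∈ F → y ∈ F → gp W pos x = gp W pos y → pos x < pos y →
      (Yf W F pos x).card < (Yf W F pos y).card := by
    intro x y hx _ hxy hlt
    apply Finset.card_lt_card
    rw [Finset.ssubset_iff_of_subset]
    · exact ⟨x, mem_Yf.2 ⟨hx, hxy, hlt⟩, fun h => lt_irrefl _ (mem_Yf.1 h).2.2⟩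
    · intro f hf
      obtain ⟨a1, a2, a3⟩ := mem_Yf.1 hf
      exact mem_Yf.2 ⟨a1, a2.trans hxy, a3.trans hlt⟩
  have hZlt : ∀ x y, x ∈ F → y ∈ F → gp W pos x = gp W pos y → pos x < pos y →
      (Zf W F pos y).card < (Zf W F pos x).card := by
    intro x y _ hy hxy hlt
    apply Finset.card_lt_card
    rw [Finset.ssubset_iff_of_subset]
    · exact ⟨y, mem_Zf.2 ⟨hy, hxy.symm, hlt⟩, fun h => lt_irrefl _ (mem_Zf.1 h).2.2⟩
    · intro f hf
      obtain ⟨a1, a2, a3⟩ := mem_Zf.1 hf
      exact mem_Zf.2 ⟨a1, a2.trans hxy.symm, hlt.trans a3⟩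
  have key : (Yf W F pos (b h)).card = (Yf W F pos (b h')).card ∨
      (Zf W F pos (b h)).card = (Zf W F pos (b h')).card := by
    split_ifs at e2 with c1 c2 c2
    · simp only [Prod.mk.injEq, true_and] at e2
      exact Or.inl e2
    · simp at e2
    · simp at e2
    · simp only [Prod.mk.injEq, true_and] at e2
      exact Or.inr e2
  rcases lt_or_gt_of_ne hpos with hlt | hlt
  · have a1 := hYlt _ _ hFh hFh' hg hlt
    have a2 := hZlt _ _ hFh hFh' hg hlt
    omega
  · have a1 := hYlt _ _ hFh' hFh hg.symm hlt
    have a2 := hZlt _ _ hFh' hFh hg.symm hlt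
    omega

end Pool.Agent.Q229.QP4
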