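import Pool.Agent.Q229.QP4.Level

set_option autoImplicit false

/-!
# Outer k-quasi-planar graphs: the test of a level
-/

namespace Pool.Agent.Q229.QP4

open Pool.Agent.H619R2.QP

variable {α : Type*} {q N M L : ℕ} {te : ℕ → ℕ → ℕ → Prop} {pos : α → ℕ} {Adj : α → α → Prop}
  {Vs : Set α} {W F g : Finset α} {c : ℕ → ℕ → α} {A : ℤ}

/-- two crossing edges of a level have few vertices of the level in their common interior -/
theorem Cop.ladder (C : Cop q N M L te pos Adj Vs W F g c)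
    (hA : ∀ i < N, ∀ j ≤ M, cr' W F pos c (2 * j + 1) i = A + (q + 2) * j) (hN : 2 ≤ N) {j : ℕ}
    (hj : j + 1 < M) {p1 p2 p3 p4 : ℕ} (h1 : p1 < N) (h2 : p2 < N) (h3 : p3 < N) (h4 : p4 < N)
    (h13 : Adj (c (2 * (j + 1) + 1) p1) (c (2 * (j + 1) + 1) p3))
    (h24 : Adj (c (2 * (j + 1) + 1) p2) (c (2 * (j + 1) + 1) p4))
    (o12 : pos (c (2 * (j + 1) + 1) p1) < pos (c (2 * (j + 1) + 1) p2))
    (o34 : pos (c (2 * (j + 1) + 1) p3) < pos (c (2 * (j + 1) + 1) p4)) {I : Finset ℕ}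
    (hI : ∀ z ∈ I, z < N ∧ pos (c (2 * (j + 1) + 1) p2) < pos (c (2 * (j + 1) + 1) z) ∧
      pos (c (2 * (j + 1) + 1) z) < pos (c (2 * (j + 1) + 1) p3)) : I.card ≤ q + 1 := by
  classical
  by_contra hcard
  push Not at hcard
  have H := C.hub
  -- positions of the level and of the adjacent vertices
  set x : ℕ → α := c (2 * (j + 1) + 1) with hx
  have lvx : ∀ {i : ℕ}, i < N → LV q N M L (2 * (j + 1) + 1) i := fun hi => lvX hi (by omega)
  have lvb : ∀ {e : ℕ}, e < q → LV q N M L (2 * (j + 1) + 2) e := fun he => lvB hj (by omega)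
  have injx : ∀ S : Finset α, (∀ y ∈ S, ∃ i < N, y = x i) → Set.InjOn pos S := by
    intro S hS y hy y' hy' hyy
    obtain ⟨i, hi, rfl⟩ := hS y hy
    obtain ⟨i', hi', rfl⟩ := hS y' hy'
    exact H.inj (C.mem (lvx hi)).1 (C.mem (lvx hi')).1 hyy
  obtain ⟨G, hG⟩ : ∃ G, G = (Finset.range q).image (c (2 * (j + 1) + 2)) := ⟨_, rfl⟩
  have hGm : ∀ y ∈ G, ∃ e < q, y = c (2 * (j + 1) + 2) e := by
    intro y hy
    rw [hG, Finset.mem_image] at hy
    obtain ⟨e, he, rfl⟩ := hy
    exact ⟨e, Finset.mem_range.1 he, rfl⟩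
  have hGc : G.card = q := by
    rw [hG, Finset.card_image_of_injOn, Finset.card_range]
    intro e he e' he' hee
    rw [Finset.mem_coe, Finset.mem_range] at he he'
    exact (C.inj _ _ _ _ (lvb he) (lvb he') hee).2
  have injG : ∀ S : Finset α, S ⊆ G → Set.InjOn pos S := by
    intro S hS y hy y' hy' hyy
    obtain ⟨e, he, rfl⟩ := hGm y (hS hy)
    obtain ⟨e', he', rfl⟩ := hGm y' (hS hy')
    exact H.inj (C.mem (lvb he)).1 (C.mem (lvb he')).1 hyy
  have hGadj : ∀ y ∈ G, ∀ i < N, Adj (x i) y := by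
    intro y hy i hi
    obtain ⟨e, he, rfl⟩ := hGm y hy
    exact C.adj _ _ _ _ (lvx hi) (lvb he) (Or.inr (Or.inr (Or.inr (Or.inr (Or.inl
      ⟨by dsimp only; omega, by dsimp only, by dsimp only; omega, Or.inl he⟩)))))
  obtain ⟨Ga, hGa⟩ : ∃ Ga, Ga = G.filter (fun y => pos y < pos (x p1)) := ⟨_, rfl⟩
  obtain ⟨Gb, hGb⟩ : ∃ Gb, Gb = G.filter (fun y => ¬ pos y < pos (x p1)) := ⟨_, rfl⟩
  have hLR : Ga.card + Gb.card = q := by
    rw [hGa, hGb, Finset.card_filter_add_card_filter_not, hGc]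
  have hGaG : Ga ⊆ G := by rw [hGa]; exact Finset.filter_subset _ _
  have hGbG : Gb ⊆ G := by rw [hGb]; exact Finset.filter_subset _ _
  have hside : ∀ y ∈ G, (∀ i < N, pos y < pos (x i)) ∨ (∀ i < N, pos (x i) < pos y) := by
    intro y hy
    obtain ⟨e, he, rfl⟩ := hGm y hy
    exact C.side hA (by omega) (lvb he) (by omega)
  have hGax : ∀ y ∈ Ga, ∀ i < N, pos y < pos (x i) := by
    intro y hy
    rcases hside y (hGaG hy) with h | h
    · exact h
    · exfalso
      rw [hGa, Finset.mem_filter] at hy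
      have := h p1 h1
      omega
  have hGbx : ∀ y ∈ Gb, ∀ i < N, pos (x i) < pos y := by
    intro y hy
    rcases hside y (hGbG hy) with h | h
    · exfalso
      rw [hGb, Finset.mem_filter] at hy
      exact hy.2 (h p1 h1)
    · exact h
  have hGl : ∀ y ∈ G, ∀ i < N, pos (c (2 * j + 1) i) < pos y := by
    intro y hy i hi
    obtain ⟨e, he, rfl⟩ := hGm y hy
    exact C.near_left hA hN he hj hi
  have hGr : ∀ y ∈ G, ∀ i < N, pos y < pos (c (2 * (j + 1 + 1) + 1) i) := by
    intro y hy i hi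
    obtain ⟨e, he, rfl⟩ := hGm y hy
    exact C.near_right hA hN he hj hi
  -- the inner vertices
  obtain ⟨X, hX⟩ : ∃ X, X = I.image x := ⟨_, rfl⟩
  have hXm : ∀ y ∈ X, (∃ i < N, y = x i) ∧ pos (x p2) < pos y ∧ pos y < pos (x p3) := by
    intro y hy
    rw [hX, Finset.mem_image] at hy
    obtain ⟨z, hz, rfl⟩ := hy
    exact ⟨⟨z, (hI z hz).1, rfl⟩, (hI z hz).2⟩
  have hXc : X.card = I.card := by
    rw [hX, Finset.card_image_of_injOn]
    intro z hz z' hz' hzz
    exact (C.inj _ _ _ _ (lvx (hI z hz).1) (lvx (hI z' hz').1) hzz).2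
  obtain ⟨X1, X2, hX1, hX2, c1, c2, o⟩ := split (pos := pos) (S := X) (n1 := Gb.card + 1)
    (n2 := Ga.card + 1) (injx X fun y hy => (hXm y hy).1) (by omega)
  obtain ⟨Y1, Z1, hY1, hZ1, c3, c4, o'⟩ := split (pos := pos) (S := X1) (n1 := Gb.card)
    (n2 := 1) (injx X1 fun y hy => (hXm y (hX1 hy)).1) (by omega)
  obtain ⟨Z2, Y2, hZ2, hY2, c5, c6, o''⟩ := split (pos := pos) (S := X2) (n1 := 1)
    (n2 := Ga.card) (injx X2 fun y hy => (hXm y (hX2 hy)).1) (by omega)
  obtain ⟨y1, rfl⟩ := Finset.card_eq_one.1 c4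
  obtain ⟨y2, rfl⟩ := Finset.card_eq_one.1 c5
  have m1 : y1 ∈ X1 := hZ1 (Finset.mem_singleton_self _)
  have m2 : y2 ∈ X2 := hZ2 (Finset.mem_singleton_self _)
  obtain ⟨⟨i1, hi1, e1⟩, k1, k1'⟩ := hXm y1 (hX1 m1)
  obtain ⟨⟨i2, hi2, e2⟩, k2, k2'⟩ := hXm y2 (hX2 m2)
  have o1 : ∀ y ∈ Y1, pos y < pos y1 := fun y hy => o' y hy y1 (Finset.mem_singleton_self _)
  have o2 : ∀ y ∈ Y2, pos y2 < pos y := fun y hy => o'' y2 (Finset.mem_singleton_self _) y hy
  have o3 : pos y1 < pos y2 := o y1 m1 y2 m2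
  have b1 : Adj (c (2 * j + 1) i2) y2 := by rw [e2]; exact C.bus hi2 (by omega)
  have b2 : Adj y1 (c (2 * (j + 1 + 1) + 1) i1) := by rw [e1]; exact C.bus hi1 (by omega)
  have t1 : ∀ i < N, pos (c (2 * j + 1) i2) < pos (x i) := fun i hi =>
    C.lev_lt hA hi2 hi (by omega)
  have t2 : ∀ i < N, pos (x i) < pos (c (2 * (j + 1 + 1) + 1) i1) := fun i hi =>
    C.lev_lt hA hi hi1 (by omega)
  obtain ⟨l2, hl2, L2⟩ := Lad.of_sets (pos := pos) (Adj := Adj) (A := Ga) (B := Y2)
    (n := Ga.card) le_rfl c6.ge (fun u hu v hv => by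
      obtain ⟨i, hi, rfl⟩ := (hXm v (hX2 (hY2 hv))).1
      exact H.symm _ _ (hGadj u (hGaG hu) i hi))
    (injG _ hGaG) (injx _ fun y hy => (hXm y (hX2 (hY2 hy))).1)
  obtain ⟨l5, hl5, L5⟩ := Lad.of_sets (pos := pos) (Adj := Adj) (A := Y1) (B := Gb)
    (n := Gb.card) c3.ge le_rfl (fun u hu v hv => by
      obtain ⟨i, hi, rfl⟩ := (hXm u (hX1 (hY1 hu))).1
      exact hGadj v (hGbG hv) i hi)
    (injx _ fun y hy => (hXm y (hX1 (hY1 hy))).1) (injG _ hGbG)
  have L1 := Lad.single (pos := pos) b1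
  have L3 := Lad.single (pos := pos) h13
  have L4 := Lad.single (pos := pos) h24
  have L6 := Lad.single (pos := pos) b2
  have u1 : ∀ y ∈ Y1, pos (x p2) < pos y ∧ pos y < pos (x p3) := fun y hy =>
    (hXm y (hX1 (hY1 hy))).2
  have u2 : ∀ y ∈ Y2, pos (x p2) < pos y ∧ pos y < pos (x p3) := fun y hy =>
    (hXm y (hX2 (hY2 hy))).2
  have v1 : ∀ y ∈ Ga, pos (c (2 * j + 1) i2) < pos y ∧ pos y < pos (x p1) ∧ pos y < pos (x p2) :=
    fun y hy => ⟨hGl y (hGaG hy) i2 hi2, hGax y hy p1 h1, hGax y hy p2 h2⟩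
  have v2 : ∀ y ∈ Gb, pos (x p3) < pos y ∧ pos (x p4) < pos y ∧
      pos y < pos (c (2 * (j + 1 + 1) + 1) i1) :=
    fun y hy => ⟨hGbx y hy p3 h3, hGbx y hy p4 h4, hGr y (hGbG hy) i1 hi1⟩
  have w1 := t1 p1 h1
  have w2 := t2 p4 h4
  have L12 := L1.append L2 (fun a ha b hb => by
    rw [Set.mem_singleton_iff] at ha
    subst ha
    exact (v1 b hb).1) (fun a ha b hb => by
    rw [Set.mem_singleton_iff] at ha
    subst ha
    exact o2 b hb)
  have L123 := L12.append L3 (fun a ha b hb => by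
    rw [Set.mem_singleton_iff] at hb
    subst hb
    rcases ha with ha | ha
    · rw [Set.mem_singleton_iff] at ha
      subst ha
      exact w1
    · exact (v1 a ha).2.1) (fun a ha b hb => by
    rw [Set.mem_singleton_iff] at hb
    subst hb
    rcases ha with ha | ha
    · rw [Set.mem_singleton_iff] at ha
      subst ha
      exact k2'
    · exact (u2 a ha).2)
  have L14 := L123.append L4 (fun a ha b hb => by
    rw [Set.mem_singleton_iff] at hb
    subst hb
    rcases ha with (ha | ha) | ha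
    · rw [Set.mem_singleton_iff] at ha
      subst ha
      omega
    · exact (v1 a ha).2.2
    · rw [Set.mem_singleton_iff] at ha
      subst ha
      exact o12) (fun a ha b hb => by
    rw [Set.mem_singleton_iff] at hb
    subst hb
    rcases ha with (ha | ha) | ha
    · rw [Set.mem_singleton_iff] at ha
      subst ha
      omega
    · have := (u2 a ha).2
      omega
    · rw [Set.mem_singleton_iff] at ha
      subst ha
      exact o34)
  have A4 : ∀ a ∈ ({c (2 * j + 1) i2} ∪ ↑Ga ∪ {x p1} ∪ {x p2} : Set α),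
      pos a ≤ pos (x p2) := by
    intro a ha
    rcases ha with ((ha | ha) | ha) | ha
    · rw [Set.mem_singleton_iff] at ha
      subst ha
      omega
    · exact (v1 a ha).2.2.le
    · rw [Set.mem_singleton_iff] at ha
      subst ha
      exact o12.le
    · rw [Set.mem_singleton_iff] at ha
      subst ha
      exact le_rfl
  have B4 : ∀ b ∈ ({y2} ∪ ↑Y2 ∪ {x p3} ∪ {x p4} : Set α),
      pos b ≤ pos (x p4) ∧ pos y2 ≤ pos b := by
    intro b hb
    rcases hb with ((hb | hb) | hb) | hb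
    · rw [Set.mem_singleton_iff] at hb
      subst hb
      omega
    · have := (u2 b hb).2
      have := o2 b hb
      omega
    · rw [Set.mem_singleton_iff] at hb
      subst hb
      omega
    · rw [Set.mem_singleton_iff] at hb
      subst hb
      omega
  have L15 := L14.append L5 (fun a ha b hb => by
    have := A4 a ha
    have := (u1 b hb).1
    omega) (fun a ha b hb => by
    have := (B4 a ha).1
    have := (v2 b hb).2.1
    omega)
  have L16 := L15.append L6 (fun a ha b hb => by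
    rw [Set.mem_singleton_iff] at hb
    subst hb
    rcases ha with ha | ha
    · have := A4 a ha
      omega
    · exact o1 a ha) (fun a ha b hb => by
    rw [Set.mem_singleton_iff] at hb
    subst hb
    rcases ha with ha | ha
    · have := (B4 a ha).1
      omega
    · exact (v2 a ha).2.2)
  have := H.nt.lad L16 (by
    have hl : ∀ a ∈ ({c (2 * j + 1) i2} ∪ ↑Ga ∪ {x p1} ∪ {x p2} ∪ ↑Y1 ∪ {y1} : Set α),
        pos a ≤ pos y1 := by
      intro a ha
      rcases ha with (ha | ha) | ha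
      · have := A4 a ha
        omega
      · exact (o1 a ha).le
      · rw [Set.mem_singleton_iff] at ha
        subst ha
        exact le_rfl
    have hr : ∀ b ∈ ({y2} ∪ ↑Y2 ∪ {x p3} ∪ {x p4} ∪ ↑Gb ∪ {c (2 * (j + 1 + 1) + 1) i1} : Set α),
        pos y2 ≤ pos b := by
      intro b hb
      rcases hb with (hb | hb) | hb
      · exact (B4 b hb).2
      · have := (v2 b hb).1
        omega
      · rw [Set.mem_singleton_iff] at hb
        subst hb
        omega
    intro a ha b hb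
    have := hl a ha
    have := hr b hb
    omega)
  simp only [List.length_append, List.length_singleton, hl2, hl5] at this
  omega

end Pool.Agent.Q229.QP4
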