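import Pool.Agent.Q229.QP4.Cop

set_option autoImplicit false

/-!
# Outer k-quasi-planar graphs: the levels of a copy in a gap of the hub
-/

namespace Pool.Agent.Q229.QP4

open Pool.Agent.H619R2.QP

variable {α : Type*} {q N M L : ℕ} {te : ℕ → ℕ → ℕ → Prop} {pos : α → ℕ} {Adj : α → α → Prop}
  {Vs : Set α} {W F g : Finset α} {c : ℕ → ℕ → α} {A : ℤ}

theorem lvX {j i : ℕ} (hi : i < N) (hj : j ≤ M) : LV q N M L (2 * j + 1) i :=
  Or.inr (Or.inr (Or.inl ⟨by omega, by omega, hi⟩))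

theorem lvB {j i : ℕ} (hj : j < M) (hi : i < q + 2) : LV q N M L (2 * j + 2) i :=
  Or.inr (Or.inr (Or.inr ⟨by omega, by omega, by omega, hi⟩))

/-- consecutive levels -/
theorem Cop.lev_lt (C : Cop q N M L te pos Adj Vs W F g c)
    (hA : ∀ i < N, ∀ j ≤ M, cr' W F pos c (2 * j + 1) i = A + (q + 2) * j) {i i' j : ℕ}
    (hi : i < N) (hi' : i' < N) (hj : j < M) :
    pos (c (2 * j + 1) i) < pos (c (2 * (j + 1) + 1) i') := by
  have h1 := hA i hi j hj.le
  have h2 := hA i' hi' (j + 1) hj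
  refine lt_of_rk (F := F) (C.same (lvX hi hj.le) (lvX (j := j + 1) hi' hj)) ?_
  unfold cr' at h1 h2
  have e : ((q : ℤ) + 2) * ((j + 1 : ℕ) : ℤ) = (q + 2) * j + (q + 2) := by push_cast; ring
  rw [e] at h2
  omega

/-- exactly `q + 2` vertices of `F` between consecutive levels -/
theorem Cop.lev_bt (C : Cop q N M L te pos Adj Vs W F g c)
    (hA : ∀ i < N, ∀ j ≤ M, cr' W F pos c (2 * j + 1) i = A + (q + 2) * j) {i i' j : ℕ}
    (hi : i < N) (hi' : i' < N) (hj : j < M) :
    (Bt F pos (c (2 * j + 1) i) (c (2 * (j + 1) + 1) i')).card = q + 2 := by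
  have h1 := hA i hi j hj.le
  have h2 := hA i' hi' (j + 1) hj
  have h3 := C.cX _ i (by omega) (lvX (q := q) (L := L) hi hj.le)
  have h4 := C.hub.rk_out h3.1 h3.2.1 (C.same (lvX hi hj.le) (lvX (j := j + 1) hi' hj)) (C.lev_lt hA hi hi' hj)
  unfold cr' at h1 h2
  have e : ((q : ℤ) + 2) * ((j + 1 : ℕ) : ℤ) = (q + 2) * j + (q + 2) := by push_cast; ring
  rw [e] at h2
  omega

/-- two crossing edges cannot pass both over all vertices of `F` between two levels -/
theorem Cop.no_two (C : Cop q N M L te pos Adj Vs W F g c)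
    (hA : ∀ i < N, ∀ j ≤ M, cr' W F pos c (2 * j + 1) i = A + (q + 2) * j) {i i' j : ℕ}
    (hi : i < N) (hi' : i' < N) (hj : j < M) {z1 i1 z2 i2 : ℕ} (h1 : LV q N M L z1 i1)
    (h2 : LV q N M L z2 i2) (e1 : Adj (c z1 i1) (c (2 * (j + 1) + 1) i'))
    (e2 : Adj (c (2 * j + 1) i) (c z2 i2)) (o1 : pos (c z1 i1) < pos (c (2 * j + 1) i))
    (o2 : pos (c (2 * (j + 1) + 1) i') < pos (c z2 i2)) : False := by
  have h3 := C.lev_bt hA hi hi' hj
  have h4 : LV q N M L (2 * j + 1) i := lvX hi hj.le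
  have h5 : LV q N M L (2 * (j + 1) + 1) i' := lvX hi' hj
  have h6 := C.hub.two e1 e2 (by
    intro x hx
    simp only [List.mem_cons, List.not_mem_nil, or_false] at hx
    rcases hx with rfl | rfl | rfl | rfl
    · exact ⟨(C.mem h1).1, (C.mem h1).2, rfl⟩
    · exact ⟨(C.mem h5).1, (C.mem h5).2, C.same h5 h1⟩
    · exact ⟨(C.mem h4).1, (C.mem h4).2, C.same h4 h1⟩
    · exact ⟨(C.mem h2).1, (C.mem h2).2, C.same h2 h1⟩) o1 o2 (C.lev_lt hA hi hi' hj)
    (S := Bt F pos (c (2 * j + 1) i) (c (2 * (j + 1) + 1) i')) (Finset.filter_subset _ _)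
    (fun s hs => (mem_Bt.1 hs).2.1) (fun s hs => (mem_Bt.1 hs).2.2)
  omega

theorem Cop.bus (C : Cop q N M L te pos Adj Vs W F g c) {i j : ℕ} (hi : i < N) (hj : j < M) :
    Adj (c (2 * j + 1) i) (c (2 * (j + 1) + 1) i) :=
  C.adj _ _ _ _ (lvX hi hj.le) (lvX (j := j + 1) hi hj)
    (Or.inr (Or.inr (Or.inr (Or.inl ⟨by dsimp only; omega, by dsimp only; omega, rfl⟩))))

/-- consecutive levels are mirror images -/
theorem Cop.mirror (C : Cop q N M L te pos Adj Vs W F g c)
    (hA : ∀ i < N, ∀ j ≤ M, cr' W F pos c (2 * j + 1) i = A + (q + 2) * j) {i i' j : ℕ}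
    (hi : i < N) (hi' : i' < N) (hj : j < M)
    (h : pos (c (2 * j + 1) i) < pos (c (2 * j + 1) i')) :
    pos (c (2 * (j + 1) + 1) i') < pos (c (2 * (j + 1) + 1) i) := by
  by_contra hcon
  have hii : i ≠ i' := by
    rintro rfl
    omega
  have hne := C.ne (lvX (q := q) (L := L) (j := j + 1) hi hj) (lvX (j := j + 1) hi' hj) (Or.inr hii)
  exact C.no_two hA (i := i') (i' := i) hi' hi hj (lvX hi hj.le) (lvX (j := j + 1) hi' hj) (C.bus hi hj)
    (C.bus hi' hj) h (by omega)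

/-- a vertex of `F` is on one side of a level -/
theorem Cop.side (C : Cop q N M L te pos Adj Vs W F g c)
    (hA : ∀ i < N, ∀ j ≤ M, cr' W F pos c (2 * j + 1) i = A + (q + 2) * j) {z e j : ℕ}
    (hz : z % 2 = 0) (he : LV q N M L z e) (hj : j ≤ M) :
    (∀ i < N, pos (c z e) < pos (c (2 * j + 1) i)) ∨
      (∀ i < N, pos (c (2 * j + 1) i) < pos (c z e)) := by
  by_cases h : ∃ i < N, pos (c z e) < pos (c (2 * j + 1) i)
  · obtain ⟨i, hi, h⟩ := h
    left
    intro i' hi'
    by_contra hcon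
    have h1 := hA i hi j hj
    have h2 := hA i' hi' j hj
    have h3 := C.hub.rk_in (C.cF z e hz he) (C.same he (lvX hi hj)) h
    have h4 := rk_mono (F := F) (C.same (lvX hi' hj) he) (not_lt.1 hcon)
    unfold cr' at h1 h2
    omega
  · right
    intro i hi
    have h1 := C.ne he (lvX (q := q) (L := L) hi hj) (Or.inl (by omega))
    have h2 : ¬ pos (c z e) < pos (c (2 * j + 1) i) := fun h3 => h ⟨i, hi, h3⟩
    omega

/-- the vertices adjacent to a whole level are in the adjacent blocks -/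
theorem Cop.near_left (C : Cop q N M L te pos Adj Vs W F g c)
    (hA : ∀ i < N, ∀ j ≤ M, cr' W F pos c (2 * j + 1) i = A + (q + 2) * j) (hN : 2 ≤ N) {e j : ℕ}
    (he : e < q) (hj : j + 1 < M) {i : ℕ} (hi : i < N) :
    pos (c (2 * j + 1) i) < pos (c (2 * (j + 1) + 2) e) := by
  have hb : LV q N M L (2 * (j + 1) + 2) e := lvB hj (by omega)
  rcases C.side hA (j := j) (by omega) hb (by omega) with h | h
  · exfalso
    have key : ∀ i1 < N, ∀ i2 < N, pos (c (2 * (j + 1) + 1) i1) < pos (c (2 * (j + 1) + 1) i2) →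
        False := by
      intro i1 h1 i2 h2 h3
      refine C.no_two hA (i := i2) (i' := i1) (j := j) h2 h1 (by omega) hb (lvX h2 (by omega))
        (C.hub.symm _ _ (C.adj _ _ _ _ (lvX h1 (by omega)) hb ?_)) (C.bus h2 (by omega)) (h i2 h2) h3
      exact Or.inr (Or.inr (Or.inr (Or.inr (Or.inl ⟨by dsimp only; omega, by dsimp only,
        by dsimp only; omega, Or.inl he⟩))))
    have hne := C.ne (lvX (q := q) (N := N) (L := L) (M := M) (j := j + 1) (i := 0) (by omega)
      (by omega)) (lvX (j := j + 1) (i := 1) (by omega) (by omega)) (Or.inr (by omega))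
    rcases lt_or_gt_of_ne hne with h1 | h1
    · exact key 0 (by omega) 1 (by omega) h1
    · exact key 1 (by omega) 0 (by omega) h1
  · exact h i hi

theorem Cop.near_right (C : Cop q N M L te pos Adj Vs W F g c)
    (hA : ∀ i < N, ∀ j ≤ M, cr' W F pos c (2 * j + 1) i = A + (q + 2) * j) (hN : 2 ≤ N) {e j : ℕ}
    (he : e < q) (hj : j < M) {i : ℕ} (hi : i < N) :
    pos (c (2 * j + 2) e) < pos (c (2 * (j + 1) + 1) i) := by
  have hb : LV q N M L (2 * j + 2) e := lvB hj (by omega)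
  rcases C.side hA (j := j + 1) (by omega) hb (by omega) with h | h
  · exact h i hi
  · exfalso
    have key : ∀ i1 < N, ∀ i2 < N, pos (c (2 * j + 1) i1) < pos (c (2 * j + 1) i2) →
        False := by
      intro i1 h1 i2 h2 h3
      refine C.no_two hA (i := i2) (i' := i1) (j := j) h2 h1 hj (lvX h1 hj.le) hb
        (C.bus h1 hj) (C.adj _ _ _ _ (lvX h2 hj.le) hb ?_) h3 (h i1 h1)
      exact Or.inr (Or.inr (Or.inr (Or.inr (Or.inl ⟨by dsimp only; omega, by dsimp only,
        by dsimp only; omega, Or.inl he⟩))))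
    have hne := C.ne (lvX (q := q) (N := N) (L := L) (M := M) (j := j) (i := 0) (by omega)
      (by omega)) (lvX (j := j) (i := 1) (by omega) (by omega)) (Or.inr (by omega))
    rcases lt_or_gt_of_ne hne with h1 | h1
    · exact key 0 (by omega) 1 (by omega) h1
    · exact key 1 (by omega) 0 (by omega) h1

end Pool.Agent.Q229.QP4
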