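import Pool.Agent.Q229.QP4.Ladder

set_option autoImplicit false

/-!
# Outer k-quasi-planar graphs: the order of the chains in a copy
-/

namespace Pool.Agent.Q229.QP4

open Pool.Agent.H619R2.QP

variable {α : Type*} {q N M L : ℕ} {te : ℕ → ℕ → ℕ → Prop} {pos : α → ℕ} {Adj : α → α → Prop}
  {Vs : Set α} {W F g : Finset α} {c : ℕ → ℕ → α} {A : ℤ}

/-- the orders `s` and `s'` of the chains are equal or mirror images -/
def Same (N : ℕ) (s s' : ℕ → ℕ) : Prop :=
  (∀ i < N, ∀ i' < N, s' i < s' i' ↔ s i < s i') ∨ (∀ i < N, ∀ i' < N, s' i < s' i' ↔ s i' < s i)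

theorem Same.btw {s s' : ℕ → ℕ} (h : Same N s s') {a b z : ℕ} (ha : a < N) (hb : b < N)
    (hz : z < N) : btw s' a b z ↔ btw s a b z := by
  unfold QP4.btw
  rcases h with h | h
  · rw [h a ha z hz, h z hz b hb, h b hb z hz, h z hz a ha]
  · rw [h a ha z hz, h z hz b hb, h b hb z hz, h z hz a ha]
    tauto

theorem Same.crs {s s' : ℕ → ℕ} (h : Same N s s') {t : Tst} (ht : TOk N t) :
    Crs s' t ↔ Crs s t := by
  obtain ⟨⟨-, h1⟩, ⟨-, h2⟩, ⟨-, h3⟩, ⟨-, h4⟩, -⟩ := ht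
  unfold Crs
  rw [h.btw h1 h2 h3, h.btw h1 h2 h4]

theorem Same.inner {s s' : ℕ → ℕ} (h : Same N s s') {t : Tst} (ht : TOk N t) :
    inner N s' t = inner N s t := by
  obtain ⟨⟨-, h1⟩, ⟨-, h2⟩, ⟨-, h3⟩, ⟨-, h4⟩, -⟩ := ht
  unfold QP4.inner
  ext z
  simp only [Set.mem_setOf_eq]
  constructor
  · rintro ⟨h5, h6, h7⟩
    exact ⟨h5, (h.btw h1 h2 h5).1 h6, (h.btw h3 h4 h5).1 h7⟩
  · rintro ⟨h5, h6, h7⟩
    exact ⟨h5, (h.btw h1 h2 h5).2 h6, (h.btw h3 h4 h5).2 h7⟩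

theorem Cop.same_levels (C : Cop q N M L te pos Adj Vs W F g c)
    (hA : ∀ i < N, ∀ j ≤ M, cr' W F pos c (2 * j + 1) i = A + (q + 2) * j) (j : ℕ) (hj : j ≤ M) :
    Same N (fun i => pos (c 1 i)) (fun i => pos (c (2 * j + 1) i)) := by
  induction j with
  | zero => exact Or.inl fun i _ i' _ => Iff.rfl
  | succ j ih =>
    have h := ih (by omega)
    have hm : ∀ i < N, ∀ i' < N, pos (c (2 * (j + 1) + 1) i) < pos (c (2 * (j + 1) + 1) i') ↔
        pos (c (2 * j + 1) i') < pos (c (2 * j + 1) i) := by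
      intro i hi i' hi'
      constructor
      · intro h1
        by_contra h2
        have hne : i' ≠ i := by
          rintro rfl
          omega
        have h3 := C.ne (lvX (q := q) (L := L) (j := j) hi' (by omega))
          (lvX (j := j) hi (by omega)) (Or.inr hne)
        have := C.mirror hA hi hi' (j := j) (by omega) (by omega)
        omega
      · intro h1
        exact C.mirror hA hi' hi (j := j) (by omega) h1
    rcases h with h | h
    · refine Or.inr fun i hi i' hi' => ?_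
      rw [hm i hi i' hi']
      exact h i' hi' i hi
    · refine Or.inl fun i hi i' hi' => ?_
      rw [hm i hi i' hi']
      exact h i' hi' i hi

theorem Cop.wpass (C : Cop q N M L te pos Adj Vs W F g c)
    (hA : ∀ i < N, ∀ j ≤ M, cr' W F pos c (2 * j + 1) i = A + (q + 2) * j) (hN : 2 ≤ N) {j : ℕ}
    (hj : j + 1 < M) {t : Tst} (ht : TOk N t)
    (h13 : Adj (c (2 * (j + 1) + 1) t.1.1) (c (2 * (j + 1) + 1) t.1.2))
    (h24 : Adj (c (2 * (j + 1) + 1) t.2.1) (c (2 * (j + 1) + 1) t.2.2)) :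
    WPass q N (fun i => pos (c (2 * (j + 1) + 1) i)) t := by
  classical
  obtain ⟨⟨a, d⟩, ⟨b, e⟩⟩ := t
  obtain ⟨⟨-, h1⟩, ⟨-, h2⟩, ⟨-, h3⟩, ⟨-, h4⟩, -, n2, n3, n4, n5, n6⟩ := ht
  dsimp only at h1 h2 h3 h4 n2 n3 n4 n5 n6 h13 h24
  intro hcr
  have h31 := C.hub.symm _ _ h13
  have h42 := C.hub.symm _ _ h24
  have lvx : ∀ {i : ℕ}, i < N → LV q N M L (2 * (j + 1) + 1) i := fun hi => lvX hi (by omega)
  have m2 := C.ne (lvx h1) (lvx h3) (Or.inr n2)
  have m3 := C.ne (lvx h1) (lvx h4) (Or.inr n3)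
  have m4 := C.ne (lvx h2) (lvx h3) (Or.inr n4)
  have m5 := C.ne (lvx h2) (lvx h4) (Or.inr n5)
  have m6 := C.ne (lvx h3) (lvx h4) (Or.inr n6)
  obtain ⟨I, hI⟩ : ∃ I : Finset ℕ, I = (Finset.range N).filter (fun z =>
    btw (fun i => pos (c (2 * (j + 1) + 1) i)) a d z ∧
    btw (fun i => pos (c (2 * (j + 1) + 1) i)) b e z) := ⟨_, rfl⟩
  have hin : inner N (fun i => pos (c (2 * (j + 1) + 1) i)) ((a, d), (b, e)) = ↑I := by
    ext z
    rw [hI]
    simp [inner]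
  rw [hin, Set.ncard_coe_finset]
  have hI' : ∀ z ∈ I, z < N ∧ btw (fun i => pos (c (2 * (j + 1) + 1) i)) a d z ∧
      btw (fun i => pos (c (2 * (j + 1) + 1) i)) b e z := by
    intro z hz
    rw [hI, Finset.mem_filter, Finset.mem_range] at hz
    exact hz
  unfold Crs btw at hcr
  unfold btw at hI'
  dsimp only at hcr hI'
  set x : ℕ → ℕ := fun i => pos (c (2 * (j + 1) + 1) i) with hx
  have key := fun {p1 p2 p3 p4 : ℕ} (k1 : p1 < N) (k2 : p2 < N) (k3 : p3 < N) (k4 : p4 < N) e1 e2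
    o1 o2 o3 => C.ladder hA hN hj (p1 := p1) (p2 := p2) (p3 := p3) (p4 := p4) k1 k2 k3 k4
      e1 e2 o1 o2 (I := I) o3
  rcases hcr with ⟨c1 | c1, c2⟩ | ⟨c2, c1 | c1⟩
  · rcases Nat.lt_or_ge (pos (c (2 * (j + 1) + 1) e)) (pos (c (2 * (j + 1) + 1) a)) with c3 | c3
    · exact key h4 h1 h3 h2 h42 h13 c3 c1.2 (fun z hz => by
        have := hI' z hz
        omega)
    · exact key h1 h3 h2 h4 h13 h24 c1.1 (by omega) (fun z hz => by
        have := hI' z hz
        omega)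
  · rcases Nat.lt_or_ge (pos (c (2 * (j + 1) + 1) e)) (pos (c (2 * (j + 1) + 1) d)) with c3 | c3
    · exact key h4 h2 h3 h1 h42 h31 c3 c1.2 (fun z hz => by
        have := hI' z hz
        omega)
    · exact key h2 h3 h1 h4 h31 h24 c1.1 (by omega) (fun z hz => by
        have := hI' z hz
        omega)
  · rcases Nat.lt_or_ge (pos (c (2 * (j + 1) + 1) b)) (pos (c (2 * (j + 1) + 1) a)) with c3 | c3
    · exact key h3 h1 h4 h2 h24 h13 c3 c1.2 (fun z hz => by
        have := hI' z hz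
        omega)
    · exact key h1 h4 h2 h3 h13 h42 c1.1 (by omega) (fun z hz => by
        have := hI' z hz
        omega)
  · rcases Nat.lt_or_ge (pos (c (2 * (j + 1) + 1) b)) (pos (c (2 * (j + 1) + 1) d)) with c3 | c3
    · exact key h3 h2 h4 h1 h24 h31 c3 c1.2 (fun z hz => by
        have := hI' z hz
        omega)
    · exact key h2 h4 h1 h3 h31 h42 c1.1 (by omega) (fun z hz => by
        have := hI' z hz
        omega)

theorem Cop.out {ts : List Tst} (C : Cop q N (Mt ts) L (tE ts) pos Adj Vs W F g c)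
    (hL : L = Lf q (Mt ts)) (hN : 2 ≤ N) (hts : ∀ t ∈ ts, TOk N t)
    (h01 : pos (c 0 0) < pos (c 0 1)) :
    ∃ s : ℕ → ℕ, Inj N s ∧ ∀ t ∈ ts, WPass q N s t := by
  obtain ⟨A, hA⟩ := C.levels hL (by omega) h01
  refine ⟨fun i => pos (c 1 i), ?_, ?_⟩
  · intro i hi i' hi' h
    have h1 : LV q N (Mt ts) L 1 i := lvX (j := 0) hi (by omega)
    have h2 : LV q N (Mt ts) L 1 i' := lvX (j := 0) hi' (by omega)
    exact (C.inj _ _ _ _ h1 h2 (C.hub.inj (C.mem h1).1 (C.mem h2).1 h)).2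
  · intro t ht
    obtain ⟨j, hj, hjt⟩ := List.getElem_of_mem ht
    have hM : j + 1 < Mt ts := by
      unfold Mt
      omega
    have htj : tst ts (j + 1) = t := by
      unfold tst
      rw [Nat.add_sub_cancel, List.getD_eq_getElem?_getD, List.getElem?_eq_getElem hj, hjt]
      rfl
    have hok := hts t ht
    have hok' := hok
    obtain ⟨⟨-, h1⟩, ⟨-, h2⟩, ⟨-, h3⟩, ⟨-, h4⟩, n1, -, -, -, -, n6⟩ := hok
    have lvx : ∀ {i : ℕ}, i < N → LV q N (Mt ts) L (2 * (j + 1) + 1) i := fun hi =>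
      lvX hi (by omega)
    have hz : (2 * (j + 1) + 1) / 2 = j + 1 := by omega
    have hz' : (2 * (j + 1) + 1) % 2 = 1 := by omega
    have hadj : ∀ {u v : ℕ}, u < N → v < N → tE ts (j + 1) u v →
        Adj (c (2 * (j + 1) + 1) u) (c (2 * (j + 1) + 1) v) := by
      intro u v hu hv huv
      refine C.adj _ _ _ _ (lvx hu) (lvx hv)
        (Or.inr (Or.inr (Or.inr (Or.inr (Or.inr ⟨hz', rfl, ?_⟩)))))
      dsimp only
      rw [hz]
      exact huv
    have h13 : Adj (c (2 * (j + 1) + 1) t.1.1) (c (2 * (j + 1) + 1) t.1.2) := by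
      rcases lt_or_gt_of_ne n1 with h | h
      · exact hadj h1 h2 ⟨by omega, h, Or.inl (by rw [htj]; exact ⟨rfl, rfl⟩)⟩
      · exact C.hub.symm _ _ (hadj h2 h1 ⟨by omega, h, Or.inr (Or.inl (by
          rw [htj]; exact ⟨rfl, rfl⟩))⟩)
    have h24 : Adj (c (2 * (j + 1) + 1) t.2.1) (c (2 * (j + 1) + 1) t.2.2) := by
      rcases lt_or_gt_of_ne n6 with h | h
      · exact hadj h3 h4 ⟨by omega, h, Or.inr (Or.inr (Or.inl (by rw [htj]; exact ⟨rfl, rfl⟩)))⟩
      · exact C.hub.symm _ _ (hadj h4 h3 ⟨by omega, h, Or.inr (Or.inr (Or.inr (by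
          rw [htj]; exact ⟨rfl, rfl⟩)))⟩)
    have hw := C.wpass hA hN hM hok' h13 h24
    have hs := C.same_levels hA (j + 1) (by omega)
    intro hcr
    rw [← hs.inner hok']
    exact hw ((hs.crs hok').2 hcr)

end Pool.Agent.Q229.QP4
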