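import Mathlib

set_option autoImplicit false

/-!
# Outer k-quasi-planar graphs: rigidity of the ranks
-/

namespace Pool.Agent.Q229.QP4

theorem win {n : ℕ} (hn : 1 ≤ n) {I : Finset ℤ} (hI : I.card = n) {x y : ℤ} (hx : x ∉ I)
    (hy : y ∉ I) (hxy : x ≠ y) (h1 : ∀ a ∈ I, ∀ b ∈ I, a - b ≤ n) (h2 : ∀ a ∈ I, |x - a| ≤ n)
    (h3 : ∀ a ∈ I, |y - a| ≤ n) :
    (∀ a ∈ I, x < a ∧ a < y) ∨ (∀ a ∈ I, y < a ∧ a < x) := by
  have hne : I.Nonempty := Finset.card_pos.1 (by omega)
  obtain ⟨a, ha, hamin⟩ : ∃ a ∈ I, ∀ b ∈ I, a ≤ b := ⟨I.min' hne, I.min'_mem hne, I.min'_le⟩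
  obtain ⟨b, hb, hbmax⟩ : ∃ b ∈ I, ∀ c ∈ I, c ≤ b := ⟨I.max' hne, I.max'_mem hne, I.le_max'⟩
  have hsub : I ⊆ Finset.Icc a b := fun c hc => Finset.mem_Icc.2 ⟨hamin c hc, hbmax c hc⟩
  have c1 : (n : ℤ) ≤ b - a + 1 := by
    have := Finset.card_le_card hsub
    rw [hI, Int.card_Icc] at this
    have := hamin b hb
    omega
  have cx : a < x → x < b → (n : ℤ) + 1 ≤ b - a + 1 := by
    intro hax hxb
    have := Finset.card_le_card (Finset.insert_subset
      (Finset.mem_Icc.2 ⟨hax.le, hxb.le⟩) hsub)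
    rw [Finset.card_insert_of_notMem hx, hI, Int.card_Icc] at this
    omega
  have cy : a < y → y < b → (n : ℤ) + 1 ≤ b - a + 1 := by
    intro hax hxb
    have := Finset.card_le_card (Finset.insert_subset
      (Finset.mem_Icc.2 ⟨hax.le, hxb.le⟩) hsub)
    rw [Finset.card_insert_of_notMem hy, hI, Int.card_Icc] at this
    omega
  have cxy : a < x → x < b → a < y → y < b → (n : ℤ) + 2 ≤ b - a + 1 := by
    intro hax hxb hay hyb
    have := Finset.card_le_card (Finset.insert_subset
      (Finset.mem_Icc.2 ⟨hax.le, hxb.le⟩) (Finset.insert_subset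
      (Finset.mem_Icc.2 ⟨hay.le, hyb.le⟩) hsub))
    rw [Finset.card_insert_of_notMem (by simp [hx, hxy]), Finset.card_insert_of_notMem hy, hI,
      Int.card_Icc] at this
    omega
  have hxa : x ≠ a := fun h => hx (h ▸ ha)
  have hxb : x ≠ b := fun h => hx (h ▸ hb)
  have hya : y ≠ a := fun h => hy (h ▸ ha)
  have hyb : y ≠ b := fun h => hy (h ▸ hb)
  have d1 := abs_le.1 (h2 a ha)
  have d2 := abs_le.1 (h2 b hb)
  have d3 := abs_le.1 (h3 a ha)
  have d4 := abs_le.1 (h3 b hb)
  have d5 := h1 b hb a ha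
  have key : (x < a ∧ b < y) ∨ (y < a ∧ b < x) := by omega
  rcases key with ⟨k1, k2⟩ | ⟨k1, k2⟩
  · exact Or.inl fun c hc => ⟨lt_of_lt_of_le k1 (hamin c hc), lt_of_le_of_lt (hbmax c hc) k2⟩
  · exact Or.inr fun c hc => ⟨lt_of_lt_of_le k1 (hamin c hc), lt_of_le_of_lt (hbmax c hc) k2⟩

/-- a placement of a power of a path is the natural one or its reflection -/
theorem path_rigid {n R : ℕ} (hn : 1 ≤ n) (hR : 2 * n + 2 ≤ R) {f : ℕ → ℤ}
    (hinj : ∀ i < R, ∀ j < R, f i = f j → i = j)
    (hf : ∀ i j, i < j → j ≤ i + n → j < R → |f i - f j| ≤ n) :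
    (∀ i < R, f i = f 0 + i) ∨ (∀ i < R, f i = f 0 - i) := by
  have hw : ∀ i, i + n + 1 < R → (∀ t, 1 ≤ t → t ≤ n → f i < f (i + t) ∧ f (i + t) < f (i + n + 1))
      ∨ (∀ t, 1 ≤ t → t ≤ n → f (i + n + 1) < f (i + t) ∧ f (i + t) < f i) := by
    intro i hi
    have h := win (n := n) hn (I := (Finset.Icc (i + 1) (i + n)).image f) (x := f i)
      (y := f (i + n + 1)) ?_ ?_ ?_ ?_ ?_ ?_ ?_
    · rcases h with h | h
      · refine Or.inl fun t ht1 ht2 => ?_
        exact h _ (Finset.mem_image_of_mem f (Finset.mem_Icc.2 ⟨by omega, by omega⟩))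
      · refine Or.inr fun t ht1 ht2 => ?_
        exact h _ (Finset.mem_image_of_mem f (Finset.mem_Icc.2 ⟨by omega, by omega⟩))
    · rw [Finset.card_image_of_injOn, Nat.card_Icc]
      · omega
      · intro a ha b hb hab
        rw [Finset.mem_coe, Finset.mem_Icc] at ha hb
        exact hinj a (by omega) b (by omega) hab
    · intro h
      obtain ⟨a, ha, hab⟩ := Finset.mem_image.1 h
      rw [Finset.mem_Icc] at ha
      have := hinj a (by omega) i (by omega) hab
      omega
    · intro h
      obtain ⟨a, ha, hab⟩ := Finset.mem_image.1 h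
      rw [Finset.mem_Icc] at ha
      have := hinj a (by omega) _ (by omega) hab
      omega
    · intro h
      have := hinj i (by omega) _ (by omega) h
      omega
    · intro a ha b hb
      obtain ⟨s, hs, rfl⟩ := Finset.mem_image.1 ha
      obtain ⟨t, ht, rfl⟩ := Finset.mem_image.1 hb
      rw [Finset.mem_Icc] at hs ht
      rcases lt_trichotomy s t with h | h | h
      · have := abs_le.1 (hf s t h (by omega) (by omega))
        omega
      · subst h; simp
      · have := abs_le.1 (hf t s h (by omega) (by omega))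
        omega
    · intro a ha
      obtain ⟨s, hs, rfl⟩ := Finset.mem_image.1 ha
      rw [Finset.mem_Icc] at hs
      exact hf i s (by omega) (by omega) (by omega)
    · intro a ha
      obtain ⟨s, hs, rfl⟩ := Finset.mem_image.1 ha
      rw [Finset.mem_Icc] at hs
      rw [abs_sub_comm]
      exact hf s _ (by omega) (by omega) (by omega)
  -- the direction is constant
  have hup : (∀ i, i + n + 1 < R → ∀ t, 1 ≤ t → t ≤ n → f i < f (i + t) ∧ f (i + t) < f (i + n + 1))
      ∨ (∀ i, i + n + 1 < R → ∀ t, 1 ≤ t → t ≤ n → f (i + n + 1) < f (i + t) ∧ f (i + t) < f i) := by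
    rcases hw 0 (by omega) with h0 | h0
    · left
      intro i
      induction i with
      | zero => exact fun _ => h0
      | succ i ih =>
        intro hi
        have h1 := ih (by omega)
        rcases hw (i + 1) hi with h2 | h2
        · exact h2
        · exfalso
          have a1 := (h1 1 le_rfl hn).2
          have a2 := (h2 n hn le_rfl).2
          have e : i + 1 + n = i + n + 1 := by ring
          rw [e] at a2
          omega
    · right
      intro i
      induction i with
      | zero => exact fun _ => h0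
      | succ i ih =>
        intro hi
        have h1 := ih (by omega)
        rcases hw (i + 1) hi with h2 | h2
        · exfalso
          have a1 := (h1 1 le_rfl hn).1
          have a2 := (h2 n hn le_rfl).1
          have e : i + 1 + n = i + n + 1 := by ring
          rw [e] at a2
          omega
        · exact h2
  -- monotone functions
  have mono : ∀ g : ℕ → ℤ, (∀ i j, i < j → j ≤ i + n → j < R → |g i - g j| ≤ n) →
      (∀ i, i + n + 1 < R → ∀ t, 1 ≤ t → t ≤ n → g i < g (i + t) ∧ g (i + t) < g (i + n + 1)) →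
      ∀ i < R, g i = g 0 + i := by
    intro g hg hgw
    have hs : ∀ i, i + 1 < R → g i < g (i + 1) := by
      intro i hi
      by_cases h : i + n + 1 < R
      · exact (hgw i h 1 le_rfl hn).1
      · have h2 := (hgw (i - n) (by omega) n hn le_rfl).2
        have e1 : i - n + n = i := by omega
        rw [e1] at h2
        exact h2
    have hs' : ∀ t i, i + t < R → g i + t ≤ g (i + t) := by
      intro t
      induction t with
      | zero => intro i _; simp
      | succ t ih =>
        intro i hi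
        have h1 := ih i (by omega)
        have h2 := hs (i + t) (by omega)
        have e : i + (t + 1) = i + t + 1 := by ring
        rw [e]
        push_cast
        omega
    have hstep : ∀ i, i + 1 < R → g (i + 1) = g i + 1 := by
      intro i hi
      have h0 := hs i hi
      by_cases h : i + n < R
      · have h1 := abs_le.1 (hg i (i + n) (by omega) le_rfl h)
        have h2 := hs' (n - 1) (i + 1) (by omega)
        have e : i + 1 + (n - 1) = i + n := by omega
        rw [e] at h2
        have e2 : ((n - 1 : ℕ) : ℤ) = n - 1 := by omega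
        omega
      · have h1 := abs_le.1 (hg (i + 1 - n) (i + 1) (by omega) (by omega) hi)
        have h2 := hs' (n - 1) (i + 1 - n) (by omega)
        have e : i + 1 - n + (n - 1) = i := by omega
        rw [e] at h2
        omega
    intro i
    induction i with
    | zero => intro _; simp
    | succ i ih =>
      intro hi
      rw [hstep i hi, ih (by omega)]
      push_cast
      ring
  rcases hup with h | h
  · exact Or.inl (mono f hf h)
  · right
    have h1 := mono (fun i => - f i) (by
      intro i j h1 h2 h3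
      have := hf i j h1 h2 h3
      have e : (- f i - - f j) = -(f i - f j) := by ring
      show |(- f i - - f j)| ≤ n
      rw [e, abs_neg]
      exact this) (by
      intro i hi t h1 h2
      have := h i hi t h1 h2
      show - f i < - f (i + t) ∧ - f (i + t) < - f (i + n + 1)
      omega)
    intro i hi
    have := h1 i hi
    omega

/-- the ranks of a vertex `f` of `F` and of a neighbour `x` outside `F` -/
def near (P : ℕ) (f x : ℤ) : Prop := (f < x ∧ x - f ≤ P + 1) ∨ (x ≤ f ∧ f - x ≤ P)

/-- the ranks of the vertices of one copy -/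
structure Ranks (P M N R S : ℕ) (U V : ℕ → ℤ) (B X : ℕ → ℕ → ℤ) : Prop where
  uu : ∀ i j, i < j → j ≤ i + (P + 1) → j < R → |U i - U j| ≤ ((P + 1 : ℕ) : ℤ)
  vv : ∀ i j, i < j → j ≤ i + (P + 1) → j < S → |V i - V j| ≤ ((P + 1 : ℕ) : ℤ)
  ui : ∀ i < R, ∀ j < R, U i = U j → i = j
  vi : ∀ i < S, ∀ j < S, V i = V j → i = j
  bi : ∀ j < M, ∀ i < P, ∀ j' < M, ∀ i' < P, B j i = B j' i' → j = j' ∧ i = i'
  uv : ∀ i < R, ∀ j < S, U i ≠ V j
  ub : ∀ i < R, ∀ j' < M, ∀ i' < P, U i ≠ B j' i'
  vb : ∀ i < S, ∀ j' < M, ∀ i' < P, V i ≠ B j' i'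
  ux : ∀ c < N, near P (U (R - P - 1)) (X c 0)
  vx : ∀ c < N, near P (V P) (X c M)
  xx : ∀ c < N, ∀ j < M, |X c (j + 1) - X c j| ≤ (P : ℤ)
  bx : ∀ j < M, ∀ i < P, near P (B j i) (X 0 j)

theorem Ranks.refl {P M N R S : ℕ} {U V : ℕ → ℤ} {B X : ℕ → ℕ → ℤ} (H : Ranks P M N R S U V B X) :
    Ranks P M N R S (fun i => -U i - 1) (fun i => -V i - 1) (fun j i => -B j i - 1)
      (fun c j => - X c j) := by
  have hn : ∀ f x : ℤ, near P f x → near P (-f - 1) (-x) := by
    intro f x h
    unfold near at h ⊢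
    omega
  refine ⟨?_, ?_, ?_, ?_, ?_, ?_, ?_, ?_, ?_, ?_, ?_, ?_⟩
  · intro i j h1 h2 h3
    have := abs_le.1 (H.uu i j h1 h2 h3)
    rw [abs_le]
    omega
  · intro i j h1 h2 h3
    have := abs_le.1 (H.vv i j h1 h2 h3)
    rw [abs_le]
    omega
  · intro i hi j hj h
    exact H.ui i hi j hj (by omega)
  · intro i hi j hj h
    exact H.vi i hi j hj (by omega)
  · intro j hj i hi j' hj' i' hi' h
    exact H.bi j hj i hi j' hj' i' hi' (by omega)
  · intro i hi j hj h
    exact H.uv i hi j hj (by omega)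
  · intro i hi j hj i' hi' h
    exact H.ub i hi j hj i' hi' (by omega)
  · intro i hi j hj i' hi' h
    exact H.vb i hi j hj i' hi' (by omega)
  · intro c hc
    exact hn _ _ (H.ux c hc)
  · intro c hc
    exact hn _ _ (H.vx c hc)
  · intro c hc j hj
    have := abs_le.1 (H.xx c hc j hj)
    rw [abs_le]
    omega
  · intro j hj i hi
    exact hn _ _ (H.bx j hj i hi)

theorem Ranks.natural {P M N R S : ℕ} {U V : ℕ → ℤ} {B X : ℕ → ℕ → ℤ}
    (H : Ranks P M N R S U V B X) (hP : 1 ≤ P) (hN : 0 < N) (hR : P * M + 4 * P + 6 ≤ R)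
    (hS : P * M + 4 * P + 6 ≤ S) (hU : ∀ i < R, U i = U 0 + i) :
    ∃ A : ℤ, ∀ c < N, ∀ j ≤ M, X c j = A + P * j := by
  have hPM : ((P * M : ℕ) : ℤ) = (P : ℤ) * M := by push_cast; ring
  have hR' : (P : ℤ) * M + 4 * P + 6 ≤ R := by exact_mod_cast hR
  have hS' : (P : ℤ) * M + 4 * P + 6 ≤ S := by exact_mod_cast hS
  -- bounds along the chains
  have hch : ∀ c < N, ∀ j ≤ M, |X c j - X c 0| ≤ (P : ℤ) * j := by
    intro c hc j
    induction j with
    | zero => intro _; simp
    | succ j ih =>
      intro hj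
      have h1 := abs_le.1 (ih (by omega))
      have h2 := abs_le.1 (H.xx c hc j (by omega))
      have e : (P : ℤ) * ((j + 1 : ℕ) : ℤ) = P * j + P := by push_cast; ring
      rw [e, abs_le]
      omega
  have hch' : ∀ c < N, ∀ d j, j + d = M → |X c M - X c j| ≤ (P : ℤ) * d := by
    intro c hc d
    induction d with
    | zero => intro j hj; obtain rfl : j = M := by omega
              simp
    | succ d ih =>
      intro j hj
      have h1 := abs_le.1 (ih (j + 1) (by omega))
      have h2 := abs_le.1 (H.xx c hc j (by omega))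
      have e : (P : ℤ) * ((d + 1 : ℕ) : ℤ) = P * d + P := by push_cast; ring
      rw [e, abs_le]
      omega
  have hmul : ∀ j ≤ M, (0 : ℤ) ≤ (P : ℤ) * j ∧ (P : ℤ) * j ≤ P * M := by
    intro j hj
    have h1 : (j : ℤ) ≤ M := by exact_mod_cast hj
    have h2 : (0 : ℤ) ≤ P := by positivity
    exact ⟨by positivity, mul_le_mul_of_nonneg_left h1 h2⟩
  have hPM0 := hmul M le_rfl
  have eR : U (R - P - 1) = U 0 + R - P - 1 := by
    rw [hU (R - P - 1) (by omega)]
    omega
  have hX0 : ∀ c < N, X c 0 ≤ U 0 + R ∧ U 0 + R - 2 * P - 1 ≤ X c 0 := by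
    intro c hc
    have h1 := H.ux c hc
    unfold near at h1
    omega
  have hXj : ∀ c < N, ∀ j ≤ M, U 0 + R - 2 * P - 1 - P * M ≤ X c j ∧
      X c j ≤ U 0 + R + P * M := by
    intro c hc j hj
    have h1 := abs_le.1 (hch c hc j hj)
    have h2 := hX0 c hc
    have h3 := hmul j hj
    omega
  -- values outside U
  have hout : ∀ z : ℤ, (∀ i < R, U i ≠ z) → U 0 ≤ z → U 0 + R ≤ z := by
    intro z hz h0
    by_contra hlt
    have h1 := hU (z - U 0).toNat (by omega)
    exact hz (z - U 0).toNat (by omega) (by rw [h1]; omega)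
  have hB1 : ∀ j < M, ∀ i < P, U 0 + R ≤ B j i := by
    intro j hj i hi
    refine hout _ (fun i' hi' => H.ub i' hi' j hj i hi) ?_
    have h1 := H.bx j hj i hi
    have h2 := hXj 0 hN j hj.le
    unfold near at h1
    omega
  have hVP : U 0 + R ≤ V P := by
    refine hout _ (fun i' hi' => H.uv i' hi' P (by omega)) ?_
    have h1 := H.vx 0 hN
    have h2 := hXj 0 hN M le_rfl
    unfold near at h1
    omega
  have hVP' : V P ≤ U 0 + R + P * M + P := by
    have h1 := H.vx 0 hN
    have h2 := hXj 0 hN M le_rfl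
    unfold near at h1
    omega
  have hV : ∀ i < S, V i = V 0 + i := by
    rcases path_rigid (n := P + 1) (R := S) (by omega) (by omega) H.vi H.vv with h | h
    · exact h
    · exfalso
      -- some value of V would be in U
      have h1 := h P (by omega)
      have hz : ∀ d : ℕ, d + P < S → V (P + d) = V P - d := by
        intro d hd
        rw [h (P + d) (by omega), h1]
        push_cast
        ring
      have h2 := hz (V P - (U 0 + R - 1)).toNat (by omega)
      have h3 := hU (R - 1) (by omega)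
      refine H.uv (R - 1) (by omega) (P + (V P - (U 0 + R - 1)).toNat) (by omega) ?_
      rw [h2, h3]
      omega
  have hV0 : U 0 + R ≤ V 0 := by
    by_contra hlt
    have h1 := hV P (by omega)
    have h2 := hU (R - 1) (by omega)
    have h3 := hV (U 0 + R - 1 - V 0).toNat (by omega)
    refine H.uv (R - 1) (by omega) (U 0 + R - 1 - V 0).toNat (by omega) ?_
    rw [h2, h3]
    omega
  have hB2 : ∀ j < M, ∀ i < P, B j i < V 0 := by
    intro j hj i hi
    by_contra hle
    have h1 := H.bx j hj i hi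
    have h2 := hXj 0 hN j hj.le
    unfold near at h1
    have h3 := hV (B j i - V 0).toNat (by omega)
    refine H.vb (B j i - V 0).toNat (by omega) j hj i hi ?_
    rw [h3]
    omega
  have hcard : (P : ℤ) * M ≤ V 0 - (U 0 + R) := by
    have h1 : ((Finset.range M ×ˢ Finset.range P).image (fun x => B x.1 x.2)).card = M * P := by
      rw [Finset.card_image_of_injOn, Finset.card_product, Finset.card_range, Finset.card_range]
      rintro ⟨j, i⟩ h ⟨j', i'⟩ h' he
      simp only [Finset.coe_product, Finset.coe_range, Set.mem_prod, Set.mem_Iio] at h h'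
      have := H.bi j h.1 i h.2 j' h'.1 i' h'.2 he
      exact Prod.ext this.1 this.2
    have h2 : (Finset.range M ×ˢ Finset.range P).image (fun x => B x.1 x.2) ⊆
        Finset.Ico (U 0 + R) (V 0) := by
      intro z hz
      obtain ⟨⟨j, i⟩, hji, rfl⟩ := Finset.mem_image.1 hz
      rw [Finset.mem_product, Finset.mem_range, Finset.mem_range] at hji
      exact Finset.mem_Ico.2 ⟨hB1 j hji.1 i hji.2, hB2 j hji.1 i hji.2⟩
    have h3 := Finset.card_le_card h2
    rw [h1, Int.card_Ico] at h3
    have h4 : ((M * P : ℕ) : ℤ) = (P : ℤ) * M := by push_cast; ring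
    omega
  refine ⟨U 0 + R, fun c hc j hj => ?_⟩
  have h1 := hX0 c hc
  have h2 : V 0 ≤ X c M := by
    have h3 := H.vx c hc
    have h4 := hV P (by omega)
    unfold near at h3
    omega
  have h5 := abs_le.1 (hch c hc j hj)
  have h6 := abs_le.1 (hch' c hc (M - j) j (by omega))
  have h7 : (P : ℤ) * ((M - j : ℕ) : ℤ) = P * M - P * j := by
    rw [Nat.cast_sub hj]
    ring
  rw [h7] at h6
  omega

theorem Ranks.rigid {P M N R S : ℕ} {U V : ℕ → ℤ} {B X : ℕ → ℕ → ℤ}
    (H : Ranks P M N R S U V B X) (hP : 1 ≤ P) (hN : 0 < N) (hR : P * M + 4 * P + 6 ≤ R)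
    (hS : P * M + 4 * P + 6 ≤ S) :
    (∃ A : ℤ, ∀ c < N, ∀ j ≤ M, X c j = A + P * j) ∨
      (∃ A : ℤ, ∀ c < N, ∀ j ≤ M, X c j = A - P * j) := by
  rcases path_rigid (n := P + 1) (R := R) (by omega) (by omega) H.ui H.uu with h | h
  · exact Or.inl (H.natural hP hN hR hS h)
  · obtain ⟨A, hA⟩ := H.refl.natural hP hN hR hS (by
      intro i hi
      have := h i hi
      omega)
    refine Or.inr ⟨-A, fun c hc j hj => ?_⟩
    have := hA c hc j hj
    omega

end Pool.Agent.Q229.QP4
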