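import Pool.Agent.Q229.QP4.Gap
import Pool.Agent.Q229.QP4.Rigid

set_option autoImplicit false

/-!
# Outer k-quasi-planar graphs: ranks of the vertices of a gap
-/

namespace Pool.Agent.Q229.QP4

open Pool.Agent.H619R2.QP

variable {α : Type*} {k : ℕ} {pos : α → ℕ} {Adj : α → α → Prop} {Vs : Set α} {W F : Finset α}

/-- number of vertices of `F` of the same gap to the left -/
noncomputable def rk (W F : Finset α) (pos : α → ℕ) (v : α) : ℕ := (Yf W F pos v).card

/-- vertices of `F` strictly between `u` and `v` -/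
def Bt (F : Finset α) (pos : α → ℕ) (u v : α) : Finset α :=
  F.filter (fun f => pos u < pos f ∧ pos f < pos v)

theorem mem_Bt {u v f : α} : f ∈ Bt F pos u v ↔ f ∈ F ∧ pos u < pos f ∧ pos f < pos v := by
  simp only [Bt, Finset.mem_filter]

theorem Bt_gp {u v f : α} (hg : gp W pos u = gp W pos v) (h1 : pos u < pos f)
    (h2 : pos f < pos v) : gp W pos f = gp W pos v := by
  apply Finset.Subset.antisymm
  · exact gp_mono h2.le
  · rw [← hg]
    exact gp_mono h1.le

theorem Hub.rk_out (H : Hub k pos Adj Vs W F) {u v : α} (hu : u ∈ Vs) (huF : u ∉ F)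
    (hg : gp W pos u = gp W pos v) (hlt : pos u < pos v) :
    rk W F pos v = rk W F pos u + (Bt F pos u v).card := by
  classical
  have h : Yf W F pos v = Yf W F pos u ∪ Bt F pos u v := by
    ext f
    rw [Finset.mem_union, mem_Yf, mem_Yf, mem_Bt]
    constructor
    · rintro ⟨h1, h2, h3⟩
      rcases lt_trichotomy (pos f) (pos u) with h | h | h
      · exact Or.inl ⟨h1, h2.trans hg.symm, h⟩
      · exact absurd (H.inj (H.FV f h1) hu h ▸ h1) huF
      · exact Or.inr ⟨h1, h, h3⟩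
    · rintro (⟨h1, h2, h3⟩ | ⟨h1, h2, h3⟩)
      · exact ⟨h1, h2.trans hg, h3.trans hlt⟩
      · exact ⟨h1, Bt_gp hg h2 h3, h3⟩
  unfold rk
  rw [h, Finset.card_union_of_disjoint]
  rw [Finset.disjoint_left]
  intro f hf hf'
  have := (mem_Yf.1 hf).2.2
  have := (mem_Bt.1 hf').2.1
  omega

theorem Hub.rk_in (H : Hub k pos Adj Vs W F) {u v : α} (huF : u ∈ F)
    (hg : gp W pos u = gp W pos v) (hlt : pos u < pos v) :
    rk W F pos v = rk W F pos u + 1 + (Bt F pos u v).card := by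
  classical
  have h : Yf W F pos v = (insert u (Yf W F pos u)) ∪ Bt F pos u v := by
    ext f
    rw [Finset.mem_union, Finset.mem_insert, mem_Yf, mem_Yf, mem_Bt]
    constructor
    · rintro ⟨h1, h2, h3⟩
      rcases lt_trichotomy (pos f) (pos u) with h | h | h
      · exact Or.inl (Or.inr ⟨h1, h2.trans hg.symm, h⟩)
      · exact Or.inl (Or.inl (H.inj (H.FV f h1) (H.FV u huF) h))
      · exact Or.inr ⟨h1, h, h3⟩
    · rintro ((h1 | ⟨h1, h2, h3⟩) | ⟨h1, h2, h3⟩)
      · subst h1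
        exact ⟨huF, hg, hlt⟩
      · exact ⟨h1, h2.trans hg, h3.trans hlt⟩
      · exact ⟨h1, Bt_gp hg h2 h3, h3⟩
  unfold rk
  rw [h, Finset.card_union_of_disjoint, Finset.card_insert_of_notMem]
  · intro hf
    have := (mem_Yf.1 hf).2.2
    omega
  · rw [Finset.disjoint_left]
    intro f hf hf'
    have h2 := (mem_Bt.1 hf').2.1
    rcases Finset.mem_insert.1 hf with rfl | hf
    · omega
    · have := (mem_Yf.1 hf).2.2
      omega

theorem rk_mono {u v : α} (hg : gp W pos u = gp W pos v) (h : pos u ≤ pos v) :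
    rk W F pos u ≤ rk W F pos v := by
  apply Finset.card_le_card
  intro f hf
  obtain ⟨h1, h2, h3⟩ := mem_Yf.1 hf
  exact mem_Yf.2 ⟨h1, h2.trans hg, by omega⟩

theorem lt_of_rk {u v : α} (hg : gp W pos u = gp W pos v) (h : rk W F pos u < rk W F pos v) :
    pos u < pos v := by
  by_contra hc
  have := rk_mono (F := F) hg.symm (not_lt.1 hc)
  omega

theorem Hub.bt_le (H : Hub k pos Adj Vs W F) {u v : α} (huv : Adj u v) (hu : u ∈ Vs) (hv : v ∈ Vs)
    (huW : u ∉ W) (hvW : v ∉ W) (hg : gp W pos u = gp W pos v) (hlt : pos u < pos v) :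
    (Bt F pos u v).card + 2 ≤ k :=
  H.one huv hu hv huW hvW hg hlt (Finset.filter_subset _ _) (fun _ hs => (mem_Bt.1 hs).2.1)
    (fun _ hs => (mem_Bt.1 hs).2.2)

/-- ranks of different vertices of `F` -/
theorem Hub.rk_inj (H : Hub k pos Adj Vs W F) {u v : α} (hu : u ∈ F) (hv : v ∈ F)
    (hg : gp W pos u = gp W pos v) (h : rk W F pos u = rk W F pos v) : u = v := by
  rcases lt_trichotomy (pos u) (pos v) with h1 | h1 | h1
  · have := H.rk_in hu hg h1
    omega
  · exact H.inj (H.FV u hu) (H.FV v hv) h1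
  · have := H.rk_in hv hg.symm h1
    omega

theorem Hub.rk_FF (H : Hub k pos Adj Vs W F) {u v : α} (huv : Adj u v) (hu : u ∈ F) (hv : v ∈ F)
    (hg : gp W pos u = gp W pos v) :
    |((rk W F pos u : ℕ) : ℤ) - ((rk W F pos v : ℕ) : ℤ)| ≤ ((k - 1 : ℕ) : ℤ) := by
  have hk := H.k1
  rcases lt_trichotomy (pos u) (pos v) with h1 | h1 | h1
  · have h2 := H.rk_in hu hg h1
    have h3 := H.bt_le huv (H.FV u hu) (H.FV v hv) (H.disj u hu) (H.disj v hv) hg h1
    rw [abs_le]
    omega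
  · have := H.inj (H.FV u hu) (H.FV v hv) h1
    subst this
    simp
  · have h2 := H.rk_in hv hg.symm h1
    have h3 := H.bt_le (H.symm _ _ huv) (H.FV v hv) (H.FV u hu) (H.disj v hv) (H.disj u hu)
      hg.symm h1
    rw [abs_le]
    omega

theorem Hub.rk_Fx (H : Hub k pos Adj Vs W F) {P : ℕ} (hP : k = P + 2) {u v : α} (huv : Adj u v)
    (hu : u ∈ F) (hv : v ∈ Vs) (hvF : v ∉ F) (hvW : v ∉ W) (hg : gp W pos u = gp W pos v) :
    near P ((rk W F pos u : ℕ) : ℤ) ((rk W F pos v : ℕ) : ℤ) := by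
  rcases lt_trichotomy (pos u) (pos v) with h1 | h1 | h1
  · have h2 := H.rk_in hu hg h1
    have h3 := H.bt_le huv (H.FV u hu) hv (H.disj u hu) hvW hg h1
    left
    omega
  · exact absurd (H.inj (H.FV u hu) hv h1 ▸ hu) hvF
  · have h2 := H.rk_out hv hvF hg.symm h1
    have h3 := H.bt_le (H.symm _ _ huv) hv (H.FV u hu) hvW (H.disj u hu) hg.symm h1
    right
    omega

theorem Hub.rk_xx (H : Hub k pos Adj Vs W F) {P : ℕ} (hP : k = P + 2) {u v : α} (huv : Adj u v)
    (hu : u ∈ Vs) (huF : u ∉ F) (huW : u ∉ W) (hv : v ∈ Vs) (hvF : v ∉ F) (hvW : v ∉ W)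
    (hg : gp W pos u = gp W pos v) :
    |((rk W F pos v : ℕ) : ℤ) - ((rk W F pos u : ℕ) : ℤ)| ≤ (P : ℤ) := by
  rcases lt_trichotomy (pos u) (pos v) with h1 | h1 | h1
  · have h2 := H.rk_out hu huF hg h1
    have h3 := H.bt_le huv hu hv huW hvW hg h1
    rw [abs_le]
    omega
  · have := H.inj hu hv h1
    subst this
    simp
  · have h2 := H.rk_out hv hvF hg.symm h1
    have h3 := H.bt_le (H.symm _ _ huv) hv hu hvW huW hg.symm h1
    rw [abs_le]
    omega

end Pool.Agent.Q229.QP4
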