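import Pool.Agent.Q229.QP4.Out

set_option autoImplicit false

/-!
# Outer k-quasi-planar graphs: soundness of the graph
-/

namespace Pool.Agent.Q229.QP4

open Pool.Agent.H619R2.QP

section

variable {q N M L T : ℕ} {te : ℕ → ℕ → ℕ → Prop} {pos : V3 → ℕ} {F : Finset V3}

/-- the hub -/
def hubW (q : ℕ) : Finset V3 := (Finset.range (q + 3)).image (fun w => (0, 0, w))

theorem mem_hubW {v : V3} : v ∈ hubW q ↔ v.1 = 0 ∧ v.2.1 = 0 ∧ v.2.2 < q + 3 := by
  unfold hubW
  rw [Finset.mem_image]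
  constructor
  · rintro ⟨w, hw, rfl⟩
    exact ⟨rfl, rfl, Finset.mem_range.1 hw⟩
  · obtain ⟨a, b, c⟩ := v
    rintro ⟨rfl, rfl, h⟩
    exact ⟨c, Finset.mem_range.2 h, rfl⟩

theorem GV_LV {h z i : ℕ} (h1 : 1 ≤ h) : GV q N M L T (h, z, i) ↔ h ≤ T ∧ LV q N M L z i := by
  unfold GV LV
  dsimp only
  omega

theorem GV_finite : {v : V3 | GV q N M L T v}.Finite := by
  refine Set.Finite.subset (Finset.finite_toSet
    ((Finset.range (T + 1)) ×ˢ ((Finset.range (2 * M + 3)) ×ˢ (Finset.range (L + N + q + 3)))))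
    ?_
  rintro ⟨a, b, c⟩ h
  have h' : GV q N M L T (a, b, c) := h
  rw [Finset.mem_coe, Finset.mem_product, Finset.mem_product, Finset.mem_range, Finset.mem_range,
    Finset.mem_range]
  unfold GV at h'
  dsimp only at h' ⊢
  omega

theorem exists_F : ∃ F : Finset V3, ∀ v, v ∈ F ↔ GV q N M L T v ∧ 1 ≤ v.1 ∧ v.2.1 % 2 = 0 := by
  classical
  refine ⟨(GV_finite (q := q) (N := N) (M := M) (L := L) (T := T)).toFinset.filter
    (fun v => 1 ≤ v.1 ∧ v.2.1 % 2 = 0), fun v => ?_⟩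
  rw [Finset.mem_filter, Set.Finite.mem_toFinset]
  exact Iff.rfl

theorem mkHub (hinj : ∀ u v, GV q N M L T u → GV q N M L T v → pos u = pos v → u = v)
    (hnt : NT (q + 4) pos (GA q N M L T te))
    (hF : ∀ v, v ∈ F ↔ GV q N M L T v ∧ 1 ≤ v.1 ∧ v.2.1 % 2 = 0) :
    Hub (q + 4) pos (GA q N M L T te) {v | GV q N M L T v} (hubW q) F where
  nt := hnt
  k1 := by
    unfold hubW
    rw [Finset.card_image_of_injective, Finset.card_range]
    intro a b hab
    simpa using hab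
  inj := fun u hu v hv huv => hinj u v hu hv huv
  WV := fun w hw => Or.inl (mem_hubW.1 hw)
  FV := fun f hf => ((hF f).1 hf).1
  disj := fun f hf hw => by
    have h1 := ((hF f).1 hf).2.1
    have h2 := (mem_hubW.1 hw).1
    omega
  adj := fun w hw f hf => by
    have h1 := (hF f).1 hf
    exact ⟨Or.inl (mem_hubW.1 hw), h1.1, Or.inl (Or.inl ⟨(mem_hubW.1 hw).1, h1.2.1, h1.2.2⟩)⟩
  symm := fun u v h => ⟨h.2.1, h.1, h.2.2.symm⟩

/-- reflection -/
theorem mkRefl (H : Hub (q + 4) pos (GA q N M L T te) {v | GV q N M L T v} (hubW q) F) {K : ℕ}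
    (hK : ∀ v, GV q N M L T v → pos v < K) :
    Hub (q + 4) (fun v => K - pos v) (GA q N M L T te) {v | GV q N M L T v} (hubW q) F where
  nt := fun l hl hE hp => H.nt l hl hE (by
    refine List.Pairwise.imp_of_mem ?_ hp
    intro e f he hf hef
    have he' := hE e he
    have hf' := hE f hf
    exact cr_refl (N := K) (hK _ he'.1) (hK _ he'.2.1) (hK _ hf'.1) (hK _ hf'.2.1) hef)
  k1 := H.k1
  inj := fun u hu v hv huv => H.inj hu hv (by
    have h1 := hK u hu
    have h2 := hK v hv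
    dsimp only at huv
    omega)
  WV := H.WV
  FV := H.FV
  disj := H.disj
  adj := H.adj
  symm := H.symm

theorem refl_gp (H : Hub (q + 4) pos (GA q N M L T te) {v | GV q N M L T v} (hubW q) F) {K : ℕ}
    (hK : ∀ v, GV q N M L T v → pos v < K) {u v : V3} (hu : GV q N M L T u) (hv : GV q N M L T v)
    (huW : u ∉ hubW q) (hvW : v ∉ hubW q) (h : gp (hubW q) pos u = gp (hubW q) pos v) :
    gp (hubW q) (fun v => K - pos v) u = gp (hubW q) (fun v => K - pos v) v := by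
  have key : ∀ {x : V3}, GV q N M L T x → x ∉ hubW q → ∀ w ∈ hubW q,
      (K - pos w < K - pos x ↔ w ∉ gp (hubW q) pos x) := by
    intro x hx hxW w hw
    have h1 := H.ne (v := x) hx hxW hw
    have h2 := hK x hx
    have h3 := hK w (H.WV w hw)
    rw [mem_gp]
    constructor
    · intro h4 h5
      omega
    · intro h4
      by_contra h5
      exact h4 ⟨hw, by omega⟩
  ext w
  rw [mem_gp, mem_gp]
  constructor
  · rintro ⟨hw, h1⟩
    refine ⟨hw, ?_⟩
    rw [key hv hvW w hw, ← h, ← key hu huW w hw]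
    exact h1
  · rintro ⟨hw, h1⟩
    refine ⟨hw, ?_⟩
    rw [key hu huW w hw, h, ← key hv hvW w hw]
    exact h1

/-- all vertices of a copy whose first vertex is deep are in the same gap -/
theorem walk (H : Hub (q + 4) pos (GA q N M L T te) {v | GV q N M L T v} (hubW q) F) {h n : ℕ}
    (h1 : 1 ≤ h) (hT : h ≤ T) (hL : 2 * q + 6 ≤ L) (hN : 0 < N) (hn : 2 * L + M + 3 ≤ n)
    (hD : Deep (q + 4) (hubW q) F pos n (h, 0, 0)) (z i : ℕ) (hz : LV q N M L z i) :
    gp (hubW q) pos (h, z, i) = gp (hubW q) pos (h, 0, 0) := by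
  have hout : ∀ z i : ℕ, (h, z, i) ∉ hubW q := by
    intro z i hw
    have := (mem_hubW.1 hw).1
    dsimp only at this
    omega
  let D : ℕ → ℕ → ℕ → Prop := fun m z i =>
    gp (hubW q) pos (h, z, i) = gp (hubW q) pos (h, 0, 0) ∧ Deep (q + 4) (hubW q) F pos m (h, z, i)
  have mono : ∀ m m' z i, m' ≤ m → D m z i → D m' z i := by
    intro m m' z i hm hd
    have h3 : m' * (q + 4 - 1) ≤ m * (q + 4 - 1) := Nat.mul_le_mul_right _ hm
    exact ⟨hd.1, h3.trans hd.2.1, h3.trans hd.2.2⟩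
  have step : ∀ m z i z' i', D (m + 1) z i → LV q N M L z i → LV q N M L z' i' →
      (loc q M L te (z, i) (z', i') ∨ loc q M L te (z', i') (z, i)) → D m z' i' := by
    intro m z i z' i' hd hv hv' hl
    have g1 := (GV_LV (T := T) h1).2 ⟨hT, hv⟩
    have g2 := (GV_LV (T := T) h1).2 ⟨hT, hv'⟩
    have h3 := Deep.step H (u := (h, z', i')) hd.2 g1 (hout _ _) g2 (hout _ _) (by
      refine ⟨g2, g1, ?_⟩
      rcases hl with hl | hl
      · exact Or.inr (Or.inr ⟨h1, rfl, hl⟩)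
      · exact Or.inl (Or.inr ⟨h1, rfl, hl⟩))
    exact ⟨h3.1.trans hd.1, h3.2⟩
  have hU : ∀ i, i < L → LV q N M L 0 i := fun i hi => Or.inl ⟨rfl, hi⟩
  have hV : ∀ i, i < L → LV q N M L (2 * M + 2) i := fun i hi => Or.inr (Or.inl ⟨rfl, hi⟩)
  have hX : ∀ i j, i < N → j ≤ M → LV q N M L (2 * j + 1) i := fun i j hi hj =>
    Or.inr (Or.inr (Or.inl ⟨by omega, by omega, hi⟩))
  have hB : ∀ j i, j < M → i < q + 2 → LV q N M L (2 * j + 2) i := fun j i hj hi =>
    Or.inr (Or.inr (Or.inr ⟨by omega, by omega, by omega, hi⟩))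
  have d1 : ∀ i, i < L → ∀ m, m + i ≤ n → D m 0 i := by
    intro i
    induction i with
    | zero =>
      intro _ m hm
      exact mono n m 0 0 (by omega) ⟨rfl, hD⟩
    | succ i ih =>
      intro hi m hm
      exact step m 0 i 0 (i + 1) (ih (by omega) (m + 1) (by omega)) (hU i (by omega)) (hU _ hi)
        (Or.inl (Or.inl ⟨rfl, Or.inl rfl, by dsimp only; omega, by dsimp only; omega⟩))
  have d2 : ∀ j ≤ M, ∀ i < N, ∀ m, m + (L + j + 1) ≤ n → D m (2 * j + 1) i := by
    intro j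
    induction j with
    | zero =>
      intro _ i hi m hm
      exact step m 0 (L - (q + 3)) (2 * 0 + 1) i (d1 _ (by omega) (m + 1) (by omega))
        (hU _ (by omega)) (hX i 0 hi (by omega))
        (Or.inl (Or.inr (Or.inl ⟨rfl, by dsimp only; omega, rfl⟩)))
    | succ j ih =>
      intro hj i hi m hm
      exact step m (2 * j + 1) i (2 * (j + 1) + 1) i (ih (by omega) i hi (m + 1) (by omega))
        (hX i j hi (by omega)) (hX i (j + 1) hi hj)
        (Or.inl (Or.inr (Or.inr (Or.inr (Or.inl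
          ⟨by dsimp only; omega, by dsimp only; omega, rfl⟩)))))
  have d3 : ∀ m, m + (L + M + 2) ≤ n → D m (2 * M + 2) (q + 2) := by
    intro m hm
    exact step m (2 * M + 1) 0 (2 * M + 2) (q + 2) (d2 M le_rfl 0 hN (m + 1) (by omega))
      (hX 0 M hN le_rfl) (hV _ (by omega))
      (Or.inl (Or.inr (Or.inr (Or.inl ⟨rfl, rfl, rfl⟩))))
  have d4 : ∀ r, q + 2 + r < L → ∀ m, m + (L + M + 2) + r ≤ n → D m (2 * M + 2) (q + 2 + r) := by
    intro r
    induction r with
    | zero =>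
      intro _ m hm
      exact d3 m (by omega)
    | succ r ih =>
      intro hr m hm
      exact step m (2 * M + 2) (q + 2 + r) (2 * M + 2) (q + 2 + (r + 1))
        (ih (by omega) (m + 1) (by omega)) (hV _ (by omega)) (hV _ hr)
        (Or.inl (Or.inl ⟨rfl, Or.inr rfl, by dsimp only; omega, by dsimp only; omega⟩))
  rcases hz with ⟨rfl, hi⟩ | ⟨rfl, hi⟩ | ⟨z1, z2, hi⟩ | ⟨z1, z2, z3, hi⟩
  · exact (d1 i hi 0 (by omega)).1
  · by_cases hq : q + 2 ≤ i
    · have := (d4 (i - (q + 2)) (by omega) 0 (by omega)).1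
      rw [show q + 2 + (i - (q + 2)) = i by omega] at this
      exact this
    · exact (step 0 (2 * M + 2) (q + 2) (2 * M + 2) i (d3 1 (by omega)) (hV _ (by omega)) (hV _ hi)
        (Or.inr (Or.inl ⟨rfl, Or.inr rfl, by dsimp only; omega, by dsimp only; omega⟩))).1
  · obtain ⟨j, rfl⟩ : ∃ j, z = 2 * j + 1 := ⟨z / 2, by omega⟩
    exact (d2 j (by omega) i hi 0 (by omega)).1
  · obtain ⟨j, rfl⟩ : ∃ j, z = 2 * j + 2 := ⟨(z - 2) / 2, by omega⟩
    exact (step 0 (2 * j + 1) 0 (2 * j + 2) i (d2 j (by omega) 0 hN 1 (by omega))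
      (hX 0 j hN (by omega)) (hB j i (by omega) hi)
      (Or.inl (Or.inr (Or.inr (Or.inr (Or.inr (Or.inl ⟨by dsimp only; omega, by dsimp only,
        by dsimp only; omega, Or.inr rfl⟩))))))).1

theorem mkCop (H : Hub (q + 4) pos (GA q N M L T te) {v | GV q N M L T v} (hubW q) F)
    (hF : ∀ v, v ∈ F ↔ GV q N M L T v ∧ 1 ≤ v.1 ∧ v.2.1 % 2 = 0) {h : ℕ} (h1 : 1 ≤ h)
    (hT : h ≤ T) (hg : ∀ z i, LV q N M L z i →
      gp (hubW q) pos (h, z, i) = gp (hubW q) pos (h, 0, 0)) :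
    Cop q N M L te pos (GA q N M L T te) {v | GV q N M L T v} (hubW q) F
      (gp (hubW q) pos (h, 0, 0)) (fun z i => (h, z, i)) where
  hub := H
  cF := fun z i hz hv => (hF _).2 ⟨(GV_LV h1).2 ⟨hT, hv⟩, h1, hz⟩
  cX := fun z i hz hv => by
    refine ⟨(GV_LV h1).2 ⟨hT, hv⟩, fun hf => ?_, fun hw => ?_⟩
    · have := ((hF _).1 hf).2.2
      dsimp only at this
      omega
    · have := (mem_hubW.1 hw).1
      dsimp only at this
      omega
  gap := hg
  inj := fun z i z' i' _ _ he => by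
    simp only [Prod.mk.injEq, true_and] at he
    exact he
  adj := fun z i z' i' hv hv' hl =>
    ⟨(GV_LV h1).2 ⟨hT, hv⟩, (GV_LV h1).2 ⟨hT, hv'⟩, Or.inl (Or.inr ⟨h1, rfl, hl⟩)⟩

end

theorem soundStm : SoundStm := by
  intro q N ts pos hN hts hinj hnt
  obtain ⟨M, hM⟩ : ∃ M, M = Mt ts := ⟨_, rfl⟩
  rw [← hM] at hinj hnt
  obtain ⟨L, hL⟩ : ∃ L, L = Lf q M := ⟨_, rfl⟩
  rw [← hL] at hinj hnt
  have hL' : (q + 2) * M + 4 * (q + 2) + 6 = L := hL.symm
  obtain ⟨T, hT⟩ : ∃ T, T = Tf q M := ⟨_, rfl⟩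
  rw [← hT] at hinj hnt
  obtain ⟨F, hF⟩ := exists_F (q := q) (N := N) (M := M) (L := L) (T := T)
  have H := mkHub hinj hnt hF
  obtain ⟨h, hh, hD⟩ := H.exists_deep (2 * L + M + 5) (T := T) (b := fun h => (h + 1, 0, 0))
    (fun h hh => (hF _).2 ⟨(GV_LV (by omega)).2 ⟨by omega, Or.inl ⟨rfl, by omega⟩⟩,
      by dsimp only; omega, rfl⟩)
    (fun h _ h' _ he => by
      simp only [Prod.mk.injEq, and_true] at he
      omega) (by
      rw [hT]
      unfold Tf
      rw [← hL]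
      exact Nat.lt_succ_self _)
  have hw := walk H (h := h + 1) (n := 2 * L + M + 5) (by omega) (by omega) (by omega) (by omega)
    (by omega) hD
  obtain ⟨K, hK⟩ : ∃ K, ∀ v, GV q N M L T v → pos v < K := by
    refine ⟨(GV_finite (q := q) (N := N) (M := M) (L := L) (T := T)).toFinset.sup pos + 1,
      fun v hv => ?_⟩
    have := Finset.le_sup (f := pos)
      ((GV_finite (q := q) (N := N) (M := M) (L := L) (T := T)).mem_toFinset.2 hv)
    omega
  have l0 : LV q N M L 0 0 := Or.inl ⟨rfl, by omega⟩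
  have l1 : LV q N M L 0 1 := Or.inl ⟨rfl, by omega⟩
  have g0 := (GV_LV (T := T) (show 1 ≤ h + 1 by omega)).2 ⟨by omega, l0⟩
  have g1 := (GV_LV (T := T) (show 1 ≤ h + 1 by omega)).2 ⟨by omega, l1⟩
  have hne : pos (h + 1, 0, 0) ≠ pos (h + 1, 0, 1) := by
    intro he
    have := hinj _ _ g0 g1 he
    simp at this
  rcases lt_or_gt_of_ne hne with h01 | h01
  · have C := mkCop H hF (h := h + 1) (by omega) (by omega) hw
    subst hM
    exact C.out hL hN hts h01
  · have H' := mkRefl H hK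
    have hout : ∀ z i : ℕ, (h + 1, z, i) ∉ hubW q := by
      intro z i hw
      have := (mem_hubW.1 hw).1
      dsimp only at this
      omega
    have C := mkCop H' hF (h := h + 1) (by omega) (by omega) (fun z i hv =>
      refl_gp H hK ((GV_LV (by omega)).2 ⟨by omega, hv⟩) g0 (hout _ _) (hout _ _) (hw z i hv))
    subst hM
    refine C.out hL hN hts ?_
    have := hK _ g0
    have := hK _ g1
    omega

end Pool.Agent.Q229.QP4
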